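import Pool.Graph.R_pool_sql_team_seeded_35f281b4.K7.H83.MA.Main

/-! Counting in residue classes the integers with a prime factor in a sparse set. -/

set_option autoImplicit false

namespace Pool.Agent.H18.QA

open Finset Filter Topology Pool.Agent.K7.H83.MA

theorem ap_card (N q v : ℕ) (hq : 0 < q) :
    |(((Ioc 0 N).filter fun k => k ≡ v [MOD q]).card : ℝ) - N / q| ≤ 1 := by
  have h1 := Nat.Ioc_filter_modEq_card 0 N hq v
  have hq' : (0 : ℚ) < q := by exact_mod_cast hq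
  set c : ℕ := ((Ioc 0 N).filter fun k => k ≡ v [MOD q]).card with hc
  have h0 : ((0 : ℕ) : ℚ) = 0 := Nat.cast_zero
  have e1 := Int.floor_le (((N : ℚ) - v) / q)
  have e2 := Int.lt_floor_add_one (((N : ℚ) - v) / q)
  have e3 := Int.floor_le ((((0 : ℕ) : ℚ) - v) / q)
  have e4 := Int.lt_floor_add_one ((((0 : ℕ) : ℚ) - v) / q)
  have e5 : ((N : ℚ) - v) / q - (((0 : ℕ) : ℚ) - v) / q = N / q := by
    rw [h0]; ring
  have hNq : (0 : ℚ) ≤ (N : ℚ) / q := by positivity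
  have hle : ⌊(((0 : ℕ) : ℚ) - v) / q⌋ ≤ ⌊((N : ℚ) - v) / q⌋ := by
    apply Int.floor_le_floor
    linarith
  rw [max_eq_left (by linarith)] at h1
  have h2 : (c : ℚ) = (⌊((N : ℚ) - v) / q⌋ : ℚ) - ⌊(((0 : ℕ) : ℚ) - v) / q⌋ := by
    have := congrArg (fun z : ℤ => (z : ℚ)) h1
    push_cast at this ⊢
    exact this
  have h3 : |(c : ℚ) - N / q| ≤ 1 := by
    rw [abs_le]
    constructor <;> linarith
  have h4 : (((|(c : ℚ) - N / q| : ℚ)) : ℝ) ≤ ((1 : ℚ) : ℝ) := by exact_mod_cast h3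
  push_cast at h4
  exact h4

theorem ap_card_le (N q v : ℕ) (hq : 0 < q) :
    (((Ioc 0 N).filter fun k => k ≡ v [MOD q]).card : ℝ) ≤ N / q + 1 := by
  have := (abs_le.1 (ap_card N q v hq)).2
  linarith

theorem ap_card_ge (N q v : ℕ) (hq : 0 < q) :
    (N : ℝ) / q - 1 ≤ (((Ioc 0 N).filter fun k => k ≡ v [MOD q]).card : ℝ) := by
  have := (abs_le.1 (ap_card N q v hq)).1
  linarith

theorem ap_dvd_card_le (N Q p v : ℕ) (hQ : 0 < Q) (hp : 0 < p) (hc : Nat.Coprime Q p) :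
    (((Ioc 0 N).filter fun k => k ≡ v [MOD Q] ∧ p ∣ k).card : ℝ) ≤ N / (Q * p) + 1 := by
  obtain ⟨w, hw1, hw2⟩ := Nat.chineseRemainder hc v 0
  have h1 := ap_card_le N (Q * p) w (Nat.mul_pos hQ hp)
  push_cast at h1
  refine le_trans (Nat.cast_le.2 (Finset.card_le_card fun k hk => ?_)) h1
  rw [mem_filter] at hk ⊢
  refine ⟨hk.1, ?_⟩
  rw [← Nat.modEq_and_modEq_iff_modEq_mul hc]
  refine ⟨hk.2.1.trans hw1.symm, ?_⟩
  exact ((Nat.modEq_zero_iff_dvd).2 hk.2.2).trans hw2.symm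

open scoped Classical in
theorem spa_tail {E : ℕ → Prop} (hE : Spa E) (ε : ℝ) (hε : 0 < ε) :
    ∃ P : ℕ, ∀ N : ℕ, ∑ p ∈ (Ioc P N).filter (fun p => p.Prime ∧ E p), (1 / (p : ℝ)) ≤ ε := by
  unfold Spa at hE
  obtain ⟨S, hS⟩ : ∃ S : Finset Nat.Primes, ∀ T : Finset Nat.Primes, Disjoint T S →
      ∑ p ∈ T, (if E p then 1 / ((p : ℕ) : ℝ) else 0) ≤ ε := by
    have h1 := (summable_iff_vanishing_norm.1 hE) ε hε
    obtain ⟨S, hS⟩ := h1
    refine ⟨S, fun T hT => ?_⟩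
    have := hS T hT
    exact (le_abs_self _).trans this.le
  obtain ⟨P, hP⟩ : ∃ P : ℕ, ∀ p ∈ S, (p : ℕ) ≤ P :=
    ⟨S.sup (fun p => (p : ℕ)), fun p hp => Finset.le_sup (f := fun p : Nat.Primes => (p : ℕ)) hp⟩
  refine ⟨P, fun N => ?_⟩
  set F : Finset ℕ := (Finset.Ioc P N).filter (fun p => p.Prime ∧ E p) with hF
  set T : Finset Nat.Primes := F.attach.image
    (fun x => mkP x.1 (mem_filter.1 x.2).2.1) with hT
  have h3 : ∑ p ∈ T, (if E p then 1 / ((p : ℕ) : ℝ) else 0) =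
      ∑ p ∈ F, 1 / (p : ℝ) := by
    rw [hT, Finset.sum_image, ← Finset.sum_attach F]
    · refine Finset.sum_congr rfl fun p _ => ?_
      rw [mkP_coe, if_pos (mem_filter.1 p.2).2.2]
    · intro x _ y _ hxy
      exact Subtype.ext (congrArg (fun p : Nat.Primes => (p : ℕ)) hxy)
  rw [← h3]
  refine hS T ?_
  rw [Finset.disjoint_left]
  intro p hp hpS
  rw [hT, Finset.mem_image] at hp
  obtain ⟨x, _, rfl⟩ := hp
  have h5 := mem_Ioc.1 (mem_filter.1 x.2).1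
  have h6 : (x : ℕ) ≤ P := hP _ hpS
  omega

open scoped Classical in
theorem spa_count {E : ℕ → Prop} (hE : Spa E) (ε : ℝ) (hε : 0 < ε) :
    ∃ N₀ : ℕ, ∀ N : ℕ, N₀ ≤ N →
      (((Ioc 0 N).filter (fun p => p.Prime ∧ E p)).card : ℝ) ≤ ε * N := by
  obtain ⟨P, hP⟩ := spa_tail hE (ε / 2) (by positivity)
  obtain ⟨N₀, hN₀⟩ := exists_nat_ge (2 * P / ε)
  refine ⟨N₀, fun N hN => ?_⟩
  have hN1 : 2 * (P : ℝ) / ε ≤ N := hN₀.trans (by exact_mod_cast hN)
  rw [div_le_iff₀ hε] at hN1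
  have hsub : (Ioc 0 N).filter (fun p => p.Prime ∧ E p) ⊆
      Ioc 0 P ∪ (Ioc P N).filter (fun p => p.Prime ∧ E p) := by
    intro p hp
    rw [mem_filter, mem_Ioc] at hp
    rw [mem_union, mem_Ioc, mem_filter, mem_Ioc]
    by_cases h : p ≤ P
    · exact Or.inl ⟨hp.1.1, h⟩
    · exact Or.inr ⟨⟨by omega, hp.1.2⟩, hp.2⟩
  have h1 : (((Ioc 0 N).filter (fun p => p.Prime ∧ E p)).card : ℝ) ≤
      P + (((Ioc P N).filter (fun p => p.Prime ∧ E p)).card : ℝ) := by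
    have h2 := (Finset.card_le_card hsub).trans (Finset.card_union_le _ _)
    rw [Nat.card_Ioc, Nat.sub_zero] at h2
    exact_mod_cast h2
  have h2 : (((Ioc P N).filter (fun p => p.Prime ∧ E p)).card : ℝ) ≤
      N * ∑ p ∈ (Ioc P N).filter (fun p => p.Prime ∧ E p), (1 / (p : ℝ)) := by
    rw [Finset.mul_sum, Finset.card_eq_sum_ones]
    push_cast
    refine Finset.sum_le_sum fun p hp => ?_
    rw [mem_filter, mem_Ioc] at hp
    have hp0 : (0 : ℝ) < p := by exact_mod_cast hp.2.1.pos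
    rw [mul_one_div, le_div_iff₀ hp0, one_mul]
    exact_mod_cast hp.1.2
  have h3 := hP N
  have hN0 : (0 : ℝ) ≤ N := Nat.cast_nonneg N
  nlinarith

open scoped Classical in
/-- in the residue classes modulo a suitable `Q` few integers have a prime factor in a sparse
set -/
theorem cnt_ap {E : ℕ → Prop} (hE : Spa E) (ε : ℝ) (hε : 0 < ε) :
    ∃ P : ℕ, ∀ Q : ℕ, 0 < Q → (∀ p : ℕ, p.Prime → E p → p ≤ P → p ∣ Q) →
      ∀ v : ℕ, Nat.Coprime v Q → ∃ N₀ : ℕ, ∀ N : ℕ, N₀ ≤ N →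
        (((Ioc 0 N).filter fun k => k ≡ v [MOD Q] ∧ ∃ p : ℕ, p.Prime ∧ E p ∧ p ∣ k).card : ℝ) ≤
          ε * (N / Q) := by
  obtain ⟨P, hP⟩ := spa_tail hE (ε / 2) (by positivity)
  refine ⟨P, fun Q hQ hQP v hv => ?_⟩
  have hQ0 : (0 : ℝ) < Q := by exact_mod_cast hQ
  obtain ⟨N₀, hN₀⟩ := spa_count hE (ε / (2 * Q)) (by positivity)
  refine ⟨N₀, fun N hN => ?_⟩
  have h1 := hN₀ N hN
  set F : Finset ℕ := ((Ioc P N).filter (fun p => p.Prime ∧ E p)).filter (fun p => Nat.Coprime Q p)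
    with hF
  have hsub : ((Ioc 0 N).filter fun k => k ≡ v [MOD Q] ∧ ∃ p : ℕ, p.Prime ∧ E p ∧ p ∣ k) ⊆
      F.biUnion fun p => (Ioc 0 N).filter fun k => k ≡ v [MOD Q] ∧ p ∣ k := by
    intro k hk
    rw [mem_filter, mem_Ioc] at hk
    obtain ⟨⟨hk0, hkN⟩, hkv, p, hp, hEp, hpk⟩ := hk
    have hpQ : ¬ p ∣ Q := by
      intro h
      have h2 : p ∣ v := by
        have h3 : k ≡ v [MOD p] := hkv.of_dvd h
        exact (Nat.modEq_zero_iff_dvd).1 (h3.symm.trans ((Nat.modEq_zero_iff_dvd).2 hpk))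
      have h4 := Nat.dvd_gcd h2 h
      rw [hv] at h4
      exact hp.one_lt.ne' (Nat.dvd_one.1 h4)
    rw [mem_biUnion]
    refine ⟨p, ?_, ?_⟩
    · rw [hF, mem_filter, mem_filter, mem_Ioc]
      refine ⟨⟨⟨?_, (Nat.le_of_dvd hk0 hpk).trans hkN⟩, hp, hEp⟩, ?_⟩
      · by_contra h
        exact hpQ (hQP p hp hEp (not_lt.1 h))
      · exact ((Nat.Prime.coprime_iff_not_dvd hp).2 hpQ).symm
    · rw [mem_filter, mem_Ioc]
      exact ⟨⟨hk0, hkN⟩, hkv, hpk⟩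
  have h2 : (((Ioc 0 N).filter fun k => k ≡ v [MOD Q] ∧ ∃ p : ℕ, p.Prime ∧ E p ∧ p ∣ k).card : ℝ) ≤
      ∑ p ∈ F, (((N : ℝ) / Q) * (1 / p) + 1) := by
    refine le_trans (Nat.cast_le.2 ((Finset.card_le_card hsub).trans Finset.card_biUnion_le)) ?_
    push_cast
    refine Finset.sum_le_sum fun p hp => ?_
    rw [hF, mem_filter, mem_filter] at hp
    have h3 := ap_dvd_card_le N Q p v hQ hp.1.2.1.pos hp.2
    refine h3.trans (le_of_eq ?_)
    have hp0 : (p : ℝ) ≠ 0 := by exact_mod_cast hp.1.2.1.pos.ne'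
    field_simp
  have h3 : ∑ p ∈ F, (((N : ℝ) / Q) * (1 / p) + 1) ≤ (N / Q) * (ε / 2) + ε / (2 * Q) * N := by
    rw [Finset.sum_add_distrib, ← Finset.mul_sum]
    refine add_le_add ?_ ?_
    · refine mul_le_mul_of_nonneg_left ?_ (by positivity)
      refine le_trans ?_ (hP N)
      refine Finset.sum_le_sum_of_subset_of_nonneg (Finset.filter_subset _ _) fun p _ _ => ?_
      positivity
    · rw [Finset.sum_const, nsmul_eq_mul, mul_one]
      refine le_trans (Nat.cast_le.2 (Finset.card_le_card fun p hp => ?_)) h1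
      rw [hF, mem_filter, mem_filter, mem_Ioc] at hp
      rw [mem_filter, mem_Ioc]
      exact ⟨⟨hp.1.2.1.pos, hp.1.1.2⟩, hp.1.2⟩
  refine h2.trans (h3.trans (le_of_eq ?_))
  field_simp
  ring

open scoped Classical in
/-- the integers without prime factors in a sparse set have positive lower density -/
theorem dens_pos {E : ℕ → Prop} (hE : Spa E) :
    ∃ κ : ℝ, 0 < κ ∧ ∃ N₀ : ℕ, ∀ N : ℕ, N₀ ≤ N →
      κ * N ≤ (((Ioc 0 N).filter fun k => ∀ p : ℕ, p.Prime → p ∣ k → ¬ E p).card : ℝ) := by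
  obtain ⟨P, hP⟩ := cnt_ap hE (1 / 2) (by norm_num)
  obtain ⟨N₀, hN₀⟩ := hP P.factorial (Nat.factorial_pos P)
    (fun p hp _ hle => (hp.dvd_factorial).2 hle) 1 (Nat.coprime_one_left _)
  have hQ0 : (0 : ℝ) < P.factorial := by exact_mod_cast Nat.factorial_pos P
  refine ⟨1 / (4 * P.factorial), by positivity, max N₀ (4 * P.factorial), fun N hN => ?_⟩
  have h1 := hN₀ N ((le_max_left _ _).trans hN)
  have h2 := ap_card_ge N P.factorial 1 (Nat.factorial_pos P)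
  have h3 : ((4 * P.factorial : ℕ) : ℝ) ≤ N := by exact_mod_cast (le_max_right _ _).trans hN
  push_cast at h3
  have hsub : ((Ioc 0 N).filter fun k => k ≡ 1 [MOD P.factorial]) ⊆
      ((Ioc 0 N).filter fun k => ∀ p : ℕ, p.Prime → p ∣ k → ¬ E p) ∪
      ((Ioc 0 N).filter fun k => k ≡ 1 [MOD P.factorial] ∧ ∃ p : ℕ, p.Prime ∧ E p ∧ p ∣ k) := by
    intro k hk
    rw [mem_filter] at hk
    rw [mem_union, mem_filter, mem_filter]
    by_cases h : ∃ p : ℕ, p.Prime ∧ E p ∧ p ∣ k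
    · exact Or.inr ⟨hk.1, hk.2, h⟩
    · left
      refine ⟨hk.1, fun p hp hpk hEp => h ⟨p, hp, hEp, hpk⟩⟩
  have h4 := (Finset.card_le_card hsub).trans (Finset.card_union_le _ _)
  have h5 : (((Ioc 0 N).filter fun k => k ≡ 1 [MOD P.factorial]).card : ℝ) ≤
      (((Ioc 0 N).filter fun k => ∀ p : ℕ, p.Prime → p ∣ k → ¬ E p).card : ℝ) +
      (((Ioc 0 N).filter fun k => k ≡ 1 [MOD P.factorial] ∧
        ∃ p : ℕ, p.Prime ∧ E p ∧ p ∣ k).card : ℝ) := by exact_mod_cast h4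
  have h6 : (1 : ℝ) ≤ 1 / 4 * (N / P.factorial) := by
    rw [mul_div_assoc', le_div_iff₀ hQ0]
    linarith
  have h7 : 1 / (4 * (P.factorial : ℝ)) * N = 1 / 4 * (N / P.factorial) := by
    field_simp
  rw [h7]
  linarith

end Pool.Agent.H18.QA
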