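import Pool.Agent.H18.QA.Low

/-! Positivity of the limit. -/

set_option autoImplicit false
set_option linter.unusedSectionVars false

namespace Pool.Agent.H18.QA

open Finset Filter Topology MeasureTheory ProbabilityTheory
open scoped InnerProductSpace ENNReal NNReal
open Pool.Agent.K7.H83.MA

variable {X : Type*} [MeasurableSpace X] [StandardBorelSpace X] {μ : Measure X}
  [IsProbabilityMeasure μ]
variable {r : ℕ} {c : ℕ → Fin r} {T : ℕ → X → X}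

theorem beta_eq (h : Sys c μ T) {π : Fin r → ℕ} (hq : ∀ i, 0 < qq c 1 π i) {A : Set X}
    (hA : MeasurableSet A) {m : ℕ} (hm : 0 < m) :
    (⟪one2 μ, PI (koop μ T) (qq c 1 π) (vv μ T A m)⟫_ℂ).re =
      (⟪ci μ A, koop μ T m (ci μ A)⟫_ℂ).re := by
  have h1 : one2 μ ∈ IV (koop μ T) (qq c 1 π) := by
    rw [mem_IV]; intro i; exact one2_koop h (hq i)
  rw [← PI_self, PI_of_mem h1]
  congr 1
  unfold one2 vv gv ci
  rw [koop_bl (h.mp m hm) (ind_BM hA), inner_bl (BM.const 1) (gv_BM h hm (chi_BM hA) (chi_BM hA)),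
    inner_bl (ind_BM hA) ((ind_BM hA).comp (h.mp m hm).measurable)]
  congr 1
  funext x
  unfold chi
  by_cases e1 : x ∈ A <;> simp [e1]

theorem num1 {J β Q n C S : ℝ} (hJ0 : 0 < J) (hQ : 0 < Q) (hβ0 : 0 < β) (hβ1 : β ≤ 1)
    (hJ : 2 ≤ J * β ^ 2) (hn : 0 < n) (h8 : 1 / Q * β - 1 / (16 * J * Q) ≤ S)
    (h10 : C ≤ 1 / Q + n⁻¹) (h11 : 16 * Q * (J ^ 2 * β ^ 2 + J) ≤ n) :
    J / (2 * Q) - J / (16 * Q) - 1 / (32 * Q) ≤
      J ^ 2 * β * S - (J ^ 2 * β ^ 2 + J) / 2 * C := by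
  have e0 : (J ^ 2 * β ^ 2 + J) / 2 * n⁻¹ ≤ 1 / (32 * Q) := by
    rw [← div_eq_mul_inv, div_le_div_iff₀ hn (by positivity)]
    linarith
  have e3 : J ^ 2 * β * (1 / Q * β - 1 / (16 * J * Q)) ≤ J ^ 2 * β * S :=
    mul_le_mul_of_nonneg_left h8 (by positivity)
  have e4 : (J ^ 2 * β ^ 2 + J) / 2 * C ≤ (J ^ 2 * β ^ 2 + J) / 2 * (1 / Q + n⁻¹) :=
    mul_le_mul_of_nonneg_left h10 (by positivity)
  have e5 : J ^ 2 * β * (1 / Q * β - 1 / (16 * J * Q)) =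
      J ^ 2 * β ^ 2 / Q - β * (J / (16 * Q)) := by field_simp
  have e6 : (J ^ 2 * β ^ 2 + J) / 2 * (1 / Q + n⁻¹) =
      (J ^ 2 * β ^ 2 + J) / (2 * Q) + (J ^ 2 * β ^ 2 + J) / 2 * n⁻¹ := by
    rw [mul_add]; congr 1; field_simp
  have e7 : β * (J / (16 * Q)) ≤ 1 * (J / (16 * Q)) :=
    mul_le_mul_of_nonneg_right hβ1 (by positivity)
  have e8 : J / (2 * Q) ≤ J ^ 2 * β ^ 2 / Q - (J ^ 2 * β ^ 2 + J) / (2 * Q) := by
    have e9 : J ^ 2 * β ^ 2 / Q - (J ^ 2 * β ^ 2 + J) / (2 * Q) =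
        (J ^ 2 * β ^ 2 - J) / (2 * Q) := by field_simp; ring
    rw [e9]
    refine div_le_div_of_nonneg_right ?_ (by positivity)
    have e10 : J * 2 ≤ J * (J * β ^ 2) := mul_le_mul_of_nonneg_left hJ hJ0.le
    nlinarith
  linarith

theorem num2 {J Q Z : ℝ} (hJ : 2 ≤ J) (hQ : 0 < Q) (hZ : 0 < Z) :
    Z * J / (16 * Q) + Z * J / (4 * Q) ≤ Z * (J / (2 * Q) - J / (16 * Q) - 1 / (32 * Q)) := by
  have e1 : Z * J / (16 * Q) + Z * J / (4 * Q) = Z * ((10 * J) / (32 * Q)) := by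
    field_simp; ring
  have e2 : Z * (J / (2 * Q) - J / (16 * Q) - 1 / (32 * Q)) = Z * ((14 * J - 1) / (32 * Q)) := by
    field_simp; ring
  rw [e1, e2]
  refine mul_le_mul_of_nonneg_left ?_ hZ.le
  refine div_le_div_of_nonneg_right ?_ (by positivity)
  linarith

theorem num3 (s : Finset ℕ) (J β : ℝ) (be : ℕ → ℝ) :
    ∑ m ∈ s, (J ^ 2 * (2 * β * be m - β ^ 2) - J) / 2 =
      J ^ 2 * β * ∑ m ∈ s, be m - (J ^ 2 * β ^ 2 + J) / 2 * s.card := by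
  have e1 : J ^ 2 * β * ∑ m ∈ s, be m - (J ^ 2 * β ^ 2 + J) / 2 * s.card =
      ∑ m ∈ s, (J ^ 2 * β * be m - (J ^ 2 * β ^ 2 + J) / 2) := by
    rw [Finset.sum_sub_distrib, Finset.sum_const, nsmul_eq_mul, Finset.mul_sum]; ring
  rw [e1]
  exact Finset.sum_congr rfl fun m _ => by ring

theorem num4 (J : ℕ) (wt : ℕ → ℝ) (Z n z : ℝ) (s : Finset ℕ) (ρ : ℕ → ℕ → ℝ) :
    ∑ j ∈ range J, wt j * (Z * (n⁻¹ * ∑ m ∈ s, ρ j m) - z) =
      Z * (n⁻¹ * ∑ m ∈ s, ∑ j ∈ range J, wt j * ρ j m) - (∑ j ∈ range J, wt j) * z := by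
  rw [Finset.sum_comm, Finset.sum_mul, Finset.mul_sum, Finset.mul_sum,
    ← Finset.sum_sub_distrib]
  refine Finset.sum_congr rfl fun j _ => ?_
  rw [← Finset.mul_sum]
  ring

/-- the lower bound -/
theorem low (h : Sys c μ T) {A : Set X} (hA : MeasurableSet A) (hpos : 0 < μ.real A) :
    ∃ κ : ℝ, 0 < κ ∧ ∀ᶠ N in atTop, κ ≤ RR μ T A (PK μ T (ci μ A)) N := by
  classical
  obtain ⟨π, hπ⟩ := exists_rep c
  obtain ⟨d₀, hd₀, hs₀⟩ := exists_WW hπ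
  set a : ℝ := μ.real A with ha
  have ha1 : a ≤ 1 := measureReal_le_one
  set δ : ℝ := a / 2 with hδ
  have hδ0 : 0 < δ := by positivity
  obtain ⟨A', hA', hsub, hlow, hmeas⟩ := large_part (T := T) h hA δ hδ0.le
  set F := PK μ T (ci μ A) with hFdef
  have hF : ∀ᵐ x ∂μ, posf (F x) = F x := PK_pos h (ci_pos hA)
  have hF1 : ‖F‖ ≤ 1 := (PK_norm _).trans (ci_norm hA)
  set b : ℝ := μ.real A' with hb
  have hb0 : 0 < b := by linarith
  have hb1 : b ≤ 1 := measureReal_le_one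
  set β : ℝ := b ^ 2 / 2 with hβ
  have hβ0 : 0 < β := by positivity
  have hβ1 : β ≤ 1 := by nlinarith
  obtain ⟨J, hJ⟩ := exists_nat_ge (2 / β ^ 2)
  rw [div_le_iff₀ (by positivity)] at hJ
  have hJ2 : (2 : ℝ) ≤ J := by
    have h1 : (J : ℝ) * β ^ 2 ≤ J * 1 := by
      refine mul_le_mul_of_nonneg_left ?_ (Nat.cast_nonneg _)
      nlinarith
    linarith
  have hJ0 : (0 : ℝ) < J := by linarith
  set ζ : ℝ := δ * d₀ / (8 * J) with hζ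
  have hζ0 : 0 < ζ := by positivity
  -- the constants
  obtain ⟨y, ⟨Qy, hQy, E, hE, hy⟩, hyd⟩ := PK_approx (μ := μ) (T := T) (ci μ A) (ζ / 4)
    (by positivity)
  obtain ⟨P, hP⟩ := cnt_ap hE (ζ / 8) (by positivity)
  obtain ⟨Q₀, hQ₀, hfm⟩ := first_moment (μ := μ) (T := T) h hA' β hβ0
  set Q : ℕ := Qy * P.factorial * Q₀ with hQdef
  have hQ : 0 < Q := Nat.mul_pos (Nat.mul_pos hQy (Nat.factorial_pos P)) hQ₀
  have hQr : (0 : ℝ) < Q := by exact_mod_cast hQ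
  have hQyQ : Qy ∣ Q := (Dvd.intro _ rfl : Qy ∣ Qy * P.factorial).trans (Dvd.intro _ rfl)
  have hPQ : P.factorial ∣ Q :=
    (Dvd.intro_left _ rfl : P.factorial ∣ Qy * P.factorial).trans (Dvd.intro _ rfl)
  have hQ₀Q : Q₀ ∣ Q := Dvd.intro_left _ rfl
  set ε₂ : ℝ := δ * d₀ / (8 * J * Q) with hε₂
  have hε₂0 : 0 < ε₂ := by positivity
  -- the pair bounds
  have hpair : ∀ j : ℕ, ∃ N₀ : ℕ, ∀ N : ℕ, N₀ ≤ N →
      δ * d₀ * ((N : ℝ)⁻¹ * ∑ m ∈ MM Q N, (⟪PI (koop μ T) (qq c 1 π) (vv μ T A' m),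
        koop μ T (Q ^ (j + 1)) (PI (koop μ T) (qq c 1 π) (vv μ T A' m))⟫_ℂ).re) -
        ζ / Q - ε₂ ≤ (Q : ℝ) ^ (j + 1) * RR μ T A F N := by
    intro j
    have hD : 0 < Q ^ (j + 1) := pow_pos hQ _
    have hQD : Q ∣ Q ^ (j + 1) := dvd_pow_self Q (Nat.succ_ne_zero j)
    have hDQ : ∀ m : ℕ, m ≡ 1 [MOD Q] → Nat.Coprime m (Q ^ (j + 1)) := by
      intro m hm
      refine Nat.Coprime.pow_right _ ?_
      unfold Nat.Coprime
      rw [hm.gcd_eq, Nat.gcd_one_left]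
    obtain ⟨N₀, hN₀⟩ := pair_bound (η := ζ / 4) (ε₁ := ζ / 8) h hπ hs₀ hd₀ hA hA' hsub hF hF1
      hδ0.le (by linarith) hlow hy hyd (by positivity) hQ hD hQyQ hQD hDQ
      (fun v hv => hP (Q ^ (j + 1)) hD (fun p hp hEp hpP =>
        (((hp.dvd_factorial).2 hpP).trans hPQ).trans hQD) v hv) ε₂ hε₂0
    refine ⟨N₀, fun N hN => ?_⟩
    have h1 := hN₀ N hN
    have h2 : 2 * (ζ / 4) + 4 * (ζ / 8) = ζ := by ring
    rw [h2] at h1
    push_cast at h1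
    exact h1
  choose N₁ hN₁ using hpair
  obtain ⟨N₂, hN₂⟩ := hfm Q hQ hQ₀Q (1 / (16 * J * Q)) (by positivity)
  obtain ⟨N₃, hN₃⟩ := exists_nat_ge (16 * Q * ((J : ℝ) ^ 2 * β ^ 2 + J))
  -- the weights
  set wt : ℕ → ℝ := fun j => (J : ℝ) - 1 - j with hwt
  have hwt0 : ∀ j ∈ range J, 0 ≤ wt j := by
    intro j hj
    rw [Finset.mem_range] at hj
    have : ((j + 1 : ℕ) : ℝ) ≤ J := by exact_mod_cast hj
    push_cast at this
    rw [hwt]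
    beta_reduce
    linarith
  have hwtJ : ∀ j ∈ range J, wt j ≤ J := by
    intro j _
    have : (0 : ℝ) ≤ j := Nat.cast_nonneg j
    rw [hwt]
    beta_reduce
    linarith
  set Ω : ℝ := ∑ j ∈ range J, wt j * (Q : ℝ) ^ (j + 1) with hΩ
  have hΩ0 : 0 ≤ Ω := Finset.sum_nonneg fun j hj => mul_nonneg (hwt0 j hj) (by positivity)
  set X₀ : ℝ := δ * d₀ * J / (16 * Q) with hX₀
  have hX₀0 : 0 < X₀ := by positivity
  have key : ∀ᶠ N : ℕ in atTop, X₀ ≤ Ω * RR μ T A F N := by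
    filter_upwards [eventually_ge_atTop (∑ j ∈ range J, N₁ j + N₂ + N₃ + 1)] with N hN
    have hNpos : (0 : ℝ) < N := by exact_mod_cast (by omega : 0 < N)
    have hNj : ∀ j ∈ range J, N₁ j ≤ N := fun j hj => by
      have := Finset.single_le_sum (f := N₁) (fun _ _ => Nat.zero_le _) hj
      omega
    set ρ : ℕ → ℕ → ℝ := fun j m => (⟪PI (koop μ T) (qq c 1 π) (vv μ T A' m),
        koop μ T (Q ^ (j + 1)) (PI (koop μ T) (qq c 1 π) (vv μ T A' m))⟫_ℂ).re with hρ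
    have h1 : ∑ j ∈ range J, wt j * (δ * d₀ * ((N : ℝ)⁻¹ * ∑ m ∈ MM Q N, ρ j m) -
        (ζ / Q + ε₂)) ≤ Ω * RR μ T A F N := by
      rw [hΩ, Finset.sum_mul]
      refine Finset.sum_le_sum fun j hj => ?_
      have e1 := mul_le_mul_of_nonneg_left (hN₁ j N (hNj j hj)) (hwt0 j hj)
      rw [← sub_sub, mul_assoc (wt j) ((Q : ℝ) ^ (j + 1))]
      exact e1
    refine le_trans ?_ h1
    rw [num4]
    have h3 : (∑ j ∈ range J, wt j) * (ζ / Q + ε₂) ≤ (J * J) * (ζ / Q + ε₂) := by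
      refine mul_le_mul_of_nonneg_right ?_ (by positivity)
      have := Finset.sum_le_sum hwtJ
      rw [Finset.sum_const, card_range, nsmul_eq_mul] at this
      exact this
    have h4 : (J * J : ℝ) * (ζ / Q + ε₂) = δ * d₀ * J / (4 * Q) := by
      rw [hζ, hε₂]
      field_simp
      ring
    -- the main term
    set be : ℕ → ℝ := fun m => (⟪ci μ A', koop μ T m (ci μ A')⟫_ℂ).re with hbe
    have h5 : ∀ m ∈ MM Q N, ((J : ℝ) ^ 2 * (2 * β * be m - β ^ 2) - J) / 2 ≤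
        ∑ j ∈ range J, wt j * ρ j m := by
      intro m hm
      have hm0 := (mem_MM.1 hm).1.1
      have h6 := vdc h hQ (w := PI (koop μ T) (qq c 1 π) (vv μ T A' m))
        ((PI_norm (q := qq c 1 π) (koop μ T) _).trans (vv_norm h hA' hm0)) J
      rw [beta_eq h hs₀.qpos hA' hm0] at h6
      refine le_trans ?_ h6
      have h7 : 2 * β * be m - β ^ 2 ≤ be m ^ 2 := by
        have := sq_nonneg (be m - β)
        nlinarith
      have h8 : (J : ℝ) ^ 2 * (2 * β * be m - β ^ 2) ≤ (J : ℝ) ^ 2 * be m ^ 2 :=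
        mul_le_mul_of_nonneg_left h7 (by positivity)
      change _ ≤ ((J : ℝ) ^ 2 * be m ^ 2 - J) / 2
      linarith
    have h6 := Finset.sum_le_sum h5
    rw [num3] at h6
    have h8 := hN₂ N (by omega)
    have h9 : b ^ 2 - β = β := by rw [hβ]; ring
    change 1 / (Q : ℝ) * (b ^ 2 - β) - 1 / (16 * J * Q) ≤ (N : ℝ)⁻¹ * ∑ m ∈ MM Q N, be m at h8
    rw [h9] at h8
    have hMM : ((MM Q N).card : ℝ) ≤ N / Q + 1 := ap_card_le N Q 1 hQ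
    have h10 : (N : ℝ)⁻¹ * (MM Q N).card ≤ 1 / Q + (N : ℝ)⁻¹ := by
      calc _ ≤ (N : ℝ)⁻¹ * (N / Q + 1) := mul_le_mul_of_nonneg_left hMM (by positivity)
        _ = 1 / Q + (N : ℝ)⁻¹ := by field_simp
    have h11 : 16 * Q * ((J : ℝ) ^ 2 * β ^ 2 + J) ≤ N :=
        hN₃.trans (by exact_mod_cast (by omega : N₃ ≤ N))
    have h12 := num1 hJ0 hQr hβ0 hβ1 hJ hNpos h8 h10 h11
    have h13 : (N : ℝ)⁻¹ * ((J : ℝ) ^ 2 * β * ∑ m ∈ MM Q N, be m -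
          ((J : ℝ) ^ 2 * β ^ 2 + J) / 2 * (MM Q N).card) ≤
          (N : ℝ)⁻¹ * ∑ m ∈ MM Q N, ∑ j ∈ range J, wt j * ρ j m :=
        mul_le_mul_of_nonneg_left h6 (by positivity)
    have h14 : (N : ℝ)⁻¹ * ((J : ℝ) ^ 2 * β * ∑ m ∈ MM Q N, be m -
          ((J : ℝ) ^ 2 * β ^ 2 + J) / 2 * (MM Q N).card) =
          (J : ℝ) ^ 2 * β * ((N : ℝ)⁻¹ * ∑ m ∈ MM Q N, be m) -
          ((J : ℝ) ^ 2 * β ^ 2 + J) / 2 * ((N : ℝ)⁻¹ * (MM Q N).card) := by ring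
    rw [h14] at h13
    have h15 : δ * d₀ * ((J : ℝ) / (2 * Q) - J / (16 * Q) - 1 / (32 * Q)) ≤
        δ * d₀ * ((N : ℝ)⁻¹ * ∑ m ∈ MM Q N, ∑ j ∈ range J, wt j * ρ j m) :=
      mul_le_mul_of_nonneg_left (h12.trans h13) (by positivity)
    have h16 := num2 (Z := δ * d₀) hJ2 hQr (by positivity)
    have h17 : X₀ = δ * d₀ * J / (16 * Q) := hX₀
    linarith
  have hΩpos : 0 < Ω := by
    rcases hΩ0.eq_or_lt with h1 | h1
    · obtain ⟨N, hN⟩ := key.exists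
      rw [← h1, zero_mul] at hN
      linarith
    · exact h1
  refine ⟨X₀ / Ω, by positivity, ?_⟩
  filter_upwards [key] with N hN
  rw [div_le_iff₀ hΩpos]
  linarith

/-- existence and positivity of the limit -/
theorem lim_pos (h : Sys c μ T) {A : Set X} (hA : MeasurableSet A) (hpos : 0 < μ.real A) :
    ∃ ℓ : ℝ, 0 < ℓ ∧ Tendsto (RR μ T A (ci μ A)) atTop (𝓝 ℓ) := by
  obtain ⟨ℓ, hℓ⟩ := RR_conv h hA (ci μ A)
  obtain ⟨κ, hκ, hlow⟩ := low h hA hpos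
  refine ⟨ℓ, ?_, hℓ⟩
  have h1 := hℓ.sub (RR_PK h hA (ci μ A))
  rw [sub_zero] at h1
  have h2 : κ ≤ ℓ := by
    refine ge_of_tendsto h1 ?_
    filter_upwards [hlow] with N hN
    linarith
  linarith

end Pool.Agent.H18.QA
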