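import Pool.Agent.H18.QA.Cnt

/-! Vectors fixed by most of the operators with index congruent to one. -/

set_option autoImplicit false
set_option linter.unusedSectionVars false

namespace Pool.Agent.H18.QA

open Finset Filter Topology
open scoped InnerProductSpace
open Pool.Agent.K7.H83.MA
open Pool.Agent.Y868.VR (cm cm_prime cm_one cm_mul cm_bdd)

variable {H : Type*} [NormedAddCommGroup H] [InnerProductSpace ℂ H] [CompleteSpace H]

/-- vectors fixed by all `u k` with `k` congruent to one modulo some `Q` and free of some sparse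
set of primes -/
def Fx (u : ℕ → H →L[ℂ] H) (y : H) : Prop :=
  ∃ Q : ℕ, 0 < Q ∧ ∃ E : ℕ → Prop, Spa E ∧ ∀ k : ℕ, 0 < k → k ≡ 1 [MOD Q] →
    (∀ p : ℕ, p.Prime → p ∣ k → ¬ E p) → u k y = y

theorem spa_false : Spa (fun _ => False) := by
  unfold Spa
  refine summable_zero.congr fun p => ?_
  rw [if_neg (fun h => h)]

theorem Fx.add {u : ℕ → H →L[ℂ] H} {x y : H} (hx : Fx u x) (hy : Fx u y) : Fx u (x + y) := by
  obtain ⟨Q, hQ, E, hE, h1⟩ := hx
  obtain ⟨Q', hQ', E', hE', h2⟩ := hy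
  refine ⟨Q * Q', Nat.mul_pos hQ hQ', fun p => E p ∨ E' p, hE.or hE', fun k hk hkQ hkE => ?_⟩
  rw [map_add, h1 k hk (hkQ.of_mul_right Q') (fun p hp hpk h => hkE p hp hpk (Or.inl h)),
    h2 k hk (hkQ.of_mul_left Q) (fun p hp hpk h => hkE p hp hpk (Or.inr h))]

theorem Fx.smul {u : ℕ → H →L[ℂ] H} {x : H} (hx : Fx u x) (a : ℂ) : Fx u (a • x) := by
  obtain ⟨Q, hQ, E, hE, h1⟩ := hx
  refine ⟨Q, hQ, E, hE, fun k hk hkQ hkE => ?_⟩
  rw [map_smul, h1 k hk hkQ hkE]

theorem Fx.zero (u : ℕ → H →L[ℂ] H) : Fx u 0 :=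
  ⟨1, one_pos, fun _ => False, spa_false, fun k _ _ _ => by rw [map_zero]⟩

/-- the submodule of the fixed vectors -/
def FxS (u : ℕ → H →L[ℂ] H) : Submodule ℂ H where
  carrier := {y | Fx u y}
  add_mem' := fun hx hy => Fx.add hx hy
  zero_mem' := Fx.zero u
  smul_mem' := fun a _ hx => Fx.smul hx a

theorem mem_FxS {u : ℕ → H →L[ℂ] H} {y : H} : y ∈ FxS u ↔ Fx u y := Iff.rfl

theorem prt_one_of_free {E : ℕ → Prop} {n : ℕ} (h : ∀ p : ℕ, p.Prime → p ∣ n → ¬ E p) :
    prt E n = 1 := by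
  classical
  unfold prt Pool.Agent.K7.H83.MA.ext Finsupp.prod
  refine Finset.prod_eq_one fun p hp => ?_
  rw [Nat.support_factorization, Nat.mem_primeFactors] at hp
  beta_reduce
  rw [if_neg (h p hp.1 hp.2.1), one_pow]

section

variable {r : ℕ} (c : ℕ → Fin r) (Q : ℕ)

theorem eig_Fx (hQ : 0 < Q) {u : ℕ → H →L[ℂ] H} (hu : FG c u) {π : Fin r → ℕ} (hπ : Rep c π)
    (ψ : AddChar (Additive (ZMod Q)ˣ) ℂ) (z : Fin r → ℂ)
    (hsp : ∀ i, Big c i → Spa (fun p => c p = i ∧ bu c Q ψ p * z i ≠ 1)) {y : H}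
    (hy : ∀ i, Big c i → u (π i) y = z i • y) : Fx u y := by
  classical
  set E : ℕ → Prop := fun p => bu c Q ψ p * z (c p) ≠ 1 with hEdef
  have hEsp : ∀ p, ¬ E p → ¬ Sp c Q p := by
    intro p hp hs
    apply hp
    rw [hEdef]
    simp only [bu, if_pos hs, zero_mul]
    exact zero_ne_one
  have hcop : ∀ p, p.Prime → ¬ E p → Nat.Coprime p Q := fun p hp h =>
    cop_of c Q hp (hEsp p h)
  have hSpa : Spa E := by
    have h1 : ∀ i : Fin r, Spa (fun p => Big c i ∧ (c p = i ∧ bu c Q ψ p * z i ≠ 1)) := by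
      intro i
      by_cases hi : Big c i
      · exact (hsp i hi).mono fun p hp => hp.2
      · unfold Spa
        refine summable_zero.congr fun p => ?_
        rw [if_neg (fun h => hi h.1)]
    refine ((spa_Sp c Q hQ).or (Spa.ex h1)).mono fun p hp => ?_
    by_cases hs : Sp c Q p
    · exact Or.inl hs
    · right
      have hb : Big c (c p) := by
        by_contra h2; exact hs (Or.inl h2)
      exact ⟨c p, hb, rfl, hp⟩
  -- the formula
  have hform : ∀ n, 0 < n → u n y = ψ (-(Additive.ofMul (up Q E n))) • u (prt E n) y := by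
    intro n hn
    induction n using Nat.recOnMul with
    | zero => omega
    | one =>
      unfold up prt
      rw [ext_one, ext_one, ofMul_one, neg_zero, AddChar.map_zero_eq_one, one_smul]
    | prime p hp =>
      unfold up prt
      rw [ext_prime _ hp, ext_prime _ hp]
      by_cases h : E p
      · rw [dif_neg (fun h1 => h1.2 h), if_pos h, ofMul_one, neg_zero, AddChar.map_zero_eq_one,
          one_smul]
      · have hs := hEsp p h
        have hb : Big c (c p) := by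
          by_contra h2; exact hs (Or.inl h2)
        rw [dif_pos ⟨hcop p hp h, h⟩, if_neg h, hu.one]
        have h1 : u p = u (π (c p)) := hu.fg p _ hp (hπ.prime _ hb) (hπ.col _ hb).symm
        rw [h1, hy _ hb]
        have h2 : bu c Q ψ p * z (c p) = 1 := by
          by_contra h3; exact h h3
        unfold bu at h2
        rw [if_neg hs, un_prime c Q hp, dif_pos ⟨hcop p hp h, hs⟩] at h2
        have h3 : ψ (-(Additive.ofMul (ZMod.unitOfCoprime p (hcop p hp h)))) = z (c p) := by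
          have h4 : ψ (-(Additive.ofMul (ZMod.unitOfCoprime p (hcop p hp h)))) *
              ψ (Additive.ofMul (ZMod.unitOfCoprime p (hcop p hp h))) = 1 := by
            rw [← AddChar.map_add_eq_mul, neg_add_cancel, AddChar.map_zero_eq_one]
          calc ψ (-(Additive.ofMul (ZMod.unitOfCoprime p (hcop p hp h))))
              = ψ (-(Additive.ofMul (ZMod.unitOfCoprime p (hcop p hp h)))) *
                (ψ (Additive.ofMul (ZMod.unitOfCoprime p (hcop p hp h))) * z (c p)) := by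
                rw [h2, mul_one]
            _ = z (c p) := by rw [← mul_assoc, h4, one_mul]
        rw [h3]; rfl
    | mul a b ha hb =>
      have h1 : 0 < a := Nat.pos_of_mul_pos_right hn
      have h2 : 0 < b := Nat.pos_of_mul_pos_left hn
      have h3 : up Q E (a * b) = up Q E a * up Q E b := ext_mul _ h1 h2
      rw [h3, prt_mul E h1 h2, hu.mul a b h1 h2, hu.mul _ _ (prt_pos E h1) (prt_pos E h2),
        ofMul_mul, neg_add, AddChar.map_add_eq_mul]
      change u a (u b y) = _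
      rw [hb h2, map_smul]
      have h4 : u a (u (prt E b) y) = u (prt E b) (u a y) := by
        have := hu.comm h1 (prt_pos E h2)
        exact congrArg (fun A : H →L[ℂ] H => A y) this
      rw [h4, ha h1, map_smul, smul_smul, mul_comm]
      have h5 : u (prt E b) (u (prt E a) y) = (u (prt E a) * u (prt E b)) y := by
        have := hu.comm (prt_pos E h2) (prt_pos E h1)
        exact congrArg (fun A : H →L[ℂ] H => A y) this
      rw [h5]
  refine ⟨Q, hQ, E, hSpa, fun k hk hkQ hkE => ?_⟩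
  have e1 : prt E k = 1 := prt_one_of_free hkE
  have e2 : (up Q E k : (ZMod Q)ˣ) = 1 := by
    apply Units.ext
    rw [← fr_up Q E hcop hk]
    have e3 := prt_fr E hk
    rw [e1, one_mul] at e3
    rw [← e3, Units.val_one]
    have e4 := (ZMod.natCast_eq_natCast_iff _ _ _).2 hkQ
    rw [e4, Nat.cast_one]
  rw [hform k hk, e1, e2, ofMul_one, neg_zero, AddChar.map_zero_eq_one, one_smul, hu.one]
  rfl

theorem fape_A (hQ : 0 < Q) {u : ℕ → H →L[ℂ] H} (hu : FG c u) {F : H}
    (hF : ∀ y, Fx u y → ⟪y, F⟫_ℂ = 0) (ψ : AddChar (Additive (ZMod Q)ˣ) ℂ) :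
    Tendsto (fun N : ℕ => ((N : ℂ)⁻¹ • ∑ n ∈ Ioc 0 N, cm (bu c Q ψ) n • u n) F) atTop (𝓝 0) := by
  classical
  have : NeZero Q := ⟨hQ.ne'⟩
  obtain ⟨π, hπ⟩ := exists_rep c
  set B : ℕ → H →L[ℂ] H := fun N => (N : ℂ)⁻¹ • ∑ n ∈ Ioc 0 N, cm (bu c Q ψ) n • u n with hB
  have hble := bu_le c Q hQ ψ
  have hbl : ∀ N, ‖B N‖ ≤ 1 := by
    intro N
    refine ContinuousLinearMap.opNorm_le_bound _ zero_le_one fun x => ?_
    rw [hB]
    simp only [smul_apply, _root_.sum_apply]
    rw [norm_smul, norm_inv, Complex.norm_natCast, one_mul]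
    have h1 := sum_unit_le c (cm (bu c Q ψ)) (cm_bdd hble) hu (Ioc 0 N) (N := N)
      (fun n hn => mem_Ioc.1 hn) x
    rcases Nat.eq_zero_or_pos N with h0 | h0
    · subst h0; simp
    · rw [inv_mul_le_iff₀ (by exact_mod_cast h0)]
      exact h1
  set V : Finset ℂ := insert 0 (Finset.univ.image fun g : Additive (ZMod Q)ˣ => ψ g) with hVdef
  have hV : ∀ p : ℕ, p.Prime → bu c Q ψ p ∈ V := by
    intro p _
    rw [hVdef, Finset.mem_insert]
    unfold bu
    split_ifs
    · exact Or.inl rfl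
    · right
      exact Finset.mem_image.2 ⟨_, Finset.mem_univ _, rfl⟩
  have hnc : ∀ θ : ℂ, ‖θ‖ ≤ 1 → ∀ q, 0 < q → (∀ w : Fin r → Circle, θ * ev c q w ≠ 1 →
      ¬ Summable (fun p : Nat.Primes => if bu c Q ψ p * w (c p) ≠ 1 then 1 / ((p : ℕ) : ℝ) else 0))
      → ∀ x, Tendsto (fun N => B N ((1 - θ • u q) x)) atTop (𝓝 0) := by
    intro θ hθ q hq hN x
    rw [Metric.tendsto_atTop]
    intro ε hε
    have hx0 := norm_nonneg x
    obtain ⟨N₀, h0⟩ := op_halasz c (bu c Q ψ) hble V hV θ hθ hq hN hu (ε / (2 * (‖x‖ + 1)))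
      (by positivity)
    refine ⟨max N₀ 1, fun N hN' => ?_⟩
    have hN1 : 0 < N := (le_max_right _ _).trans hN'
    have h1 := h0 N ((le_max_left _ _).trans hN')
    rw [dist_zero_right]
    have h2 : B N ((1 - θ • u q) x) = (N : ℂ)⁻¹ •
        (∑ n ∈ Ioc 0 N, cm (bu c Q ψ) n • (u n * (1 - θ • u q))) x := by
      rw [hB]
      simp only [smul_apply, _root_.sum_apply,
        mul_apply_eq_comp]
    rw [h2, norm_smul, norm_inv, Complex.norm_natCast]
    have h3 := (∑ n ∈ Ioc 0 N, cm (bu c Q ψ) n • (u n * (1 - θ • u q))).le_opNorm x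
    have hNpos : (0 : ℝ) < N := by exact_mod_cast hN1
    calc (N : ℝ)⁻¹ * ‖(∑ n ∈ Ioc 0 N, cm (bu c Q ψ) n • (u n * (1 - θ • u q))) x‖
        ≤ (N : ℝ)⁻¹ * ((ε / (2 * (‖x‖ + 1)) * N) * ‖x‖) := by
          refine mul_le_mul_of_nonneg_left (h3.trans ?_) (by positivity)
          exact mul_le_mul_of_nonneg_right h1 hx0
      _ = ε / 2 * (‖x‖ / (‖x‖ + 1)) := by field_simp
      _ ≤ ε / 2 * 1 := by
          refine mul_le_mul_of_nonneg_left ?_ (by positivity)
          rw [div_le_one (by positivity)]; linarith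
      _ < ε := by linarith
  have hsummable : ∀ w : Fin r → Circle, ∀ i, Summable (fun p : Nat.Primes =>
      if bu c Q ψ p * w (c p) ≠ 1 then 1 / ((p : ℕ) : ℝ) else 0) → Gd c Q ψ i (w i) := by
    intro w i hs
    have h1 : Spa (fun p => bu c Q ψ p * w (c p) ≠ 1) := by
      unfold Spa
      refine hs.congr fun p => ?_
      by_cases h3 : bu c Q ψ p * w (c p) ≠ 1
      · rw [if_pos h3, if_pos h3]
      · rw [if_neg h3, if_neg h3]
    refine h1.mono fun p hp => ?_
    rw [hp.1]; exact hp.2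
  by_cases hcase : ∀ i, Big c i → ∃ z : Circle, Gd c Q ψ i z
  · choose! z hz using hcase
    refine kerlem B 1 hbl (fun i => if Big c i then 1 - (star (z i : ℂ)) • u (π i) else 0)
      (fun i => ?_) (fun i x => ?_) F (fun y hy => ?_)
    · split_ifs
      · exact normal_one_sub (hu.uni _ (hπ.pos i)) _
      · infer_instance
    · split_ifs with hi
      · refine hnc (star (z i : ℂ)) (by rw [norm_star, Circle.norm_coe]) (π i) (hπ.pos i) ?_ x
        intro w hw hs
        apply hw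
        have h1 := hsummable w i hs
        have h2 : (w i : ℂ) = z i := Gd_uniq c Q hi h1 (hz i hi)
        have h3 : ev c (π i) w = w i := by
          unfold ev
          rw [cm_prime _ (hπ.prime i hi), hπ.col i hi]
        rw [h3, h2]
        have h4 : star (z i : ℂ) * (z i : ℂ) = ((‖(z i : ℂ)‖ ^ 2 : ℝ) : ℂ) := by
          rw [Complex.star_def, ← Complex.normSq_eq_conj_mul_self, Complex.normSq_eq_norm_sq]
        rw [h4, Circle.norm_coe]; simp
      · simp only [zero_apply, map_zero]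
        exact tendsto_const_nhds
    · apply hF
      refine eig_Fx c Q hQ hu hπ ψ (fun i => (z i : ℂ)) (fun i hi => hz i hi) (fun i hi => ?_)
      have h1 := hy i
      beta_reduce at h1
      rw [if_pos hi] at h1
      have h2 : y = star (z i : ℂ) • u (π i) y := by
        have h3 : y - star (z i : ℂ) • u (π i) y = 0 := h1
        exact sub_eq_zero.1 h3
      have h4 : (z i : ℂ) * star (z i : ℂ) = 1 := by
        rw [Complex.star_def, Complex.mul_conj, Complex.normSq_eq_norm_sq, Circle.norm_coe]; simp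
      calc u (π i) y = ((z i : ℂ) * star (z i : ℂ)) • u (π i) y := by rw [h4, one_smul]
        _ = (z i : ℂ) • (star (z i : ℂ) • u (π i) y) := by rw [mul_smul]
        _ = (z i : ℂ) • y := by rw [← h2]
  · push Not at hcase
    obtain ⟨i, hi, hz⟩ := hcase
    have h1 := hnc 0 (by simp) 1 one_pos (fun w _ hs => hz (w i) (hsummable w i hs)) F
    refine h1.congr fun N => ?_
    rw [zero_smul, sub_zero]; rfl

theorem fape_B (hQ : 0 < Q) {u : ℕ → H →L[ℂ] H} (hu : FG c u) {F : H}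
    (hF : ∀ y, Fx u y → ⟪y, F⟫_ℂ = 0) (v : (ZMod Q)ˣ) :
    Tendsto (fun N : ℕ => (N : ℂ)⁻¹ • ∑ n ∈ labu c Q N 1 v, u n F) atTop (𝓝 0) := by
  classical
  have : NeZero Q := ⟨hQ.ne'⟩
  have hcardc : (Fintype.card (Additive (ZMod Q)ˣ) : ℂ) ≠ 0 := by
    exact_mod_cast Fintype.card_ne_zero
  have h1 : ∀ N : ℕ, (N : ℂ)⁻¹ • ∑ n ∈ labu c Q N 1 v, u n F =
      (Fintype.card (Additive (ZMod Q)ˣ) : ℂ)⁻¹ • ∑ ψ : AddChar (Additive (ZMod Q)ˣ) ℂ,
        ψ (-(Additive.ofMul v)) • ((N : ℂ)⁻¹ • ∑ n ∈ Ioc 0 N, cm (bu c Q ψ) n • u n) F := by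
    intro N
    have h2 : ∀ n ∈ Ioc 0 N, (if sp c Q n = 1 ∧ un c Q n = v then u n F else 0) =
        (Fintype.card (Additive (ZMod Q)ˣ) : ℂ)⁻¹ • ∑ ψ : AddChar (Additive (ZMod Q)ˣ) ℂ,
          (ψ (-(Additive.ofMul v)) * cm (bu c Q ψ) n) • u n F := by
      intro n hn
      rw [mem_Ioc] at hn
      rw [← Finset.sum_smul]
      have h3 : ∑ ψ : AddChar (Additive (ZMod Q)ˣ) ℂ, ψ (-(Additive.ofMul v)) * cm (bu c Q ψ) n =
          if sp c Q n = 1 then ∑ ψ : AddChar (Additive (ZMod Q)ˣ) ℂ,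
            ψ (Additive.ofMul (un c Q n) - Additive.ofMul v) else 0 := by
        split_ifs with h2
        · refine Finset.sum_congr rfl fun ψ _ => ?_
          rw [cm_bu c Q ψ hn.1, if_pos h2, sub_eq_add_neg, AddChar.map_add_eq_mul, mul_comm]
        · refine Finset.sum_eq_zero fun ψ _ => ?_
          rw [cm_bu c Q ψ hn.1, if_neg h2, mul_zero]
      rw [h3, AddChar.sum_apply_eq_ite]
      by_cases h4 : sp c Q n = 1
      · by_cases h5 : un c Q n = v
        · rw [if_pos ⟨h4, h5⟩, if_pos h4, if_pos (by rw [h5, sub_self]), smul_smul,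
            inv_mul_cancel₀ hcardc, one_smul]
        · rw [if_neg (fun h6 => h5 h6.2), if_pos h4, if_neg (fun h6 => h5 ?_), zero_smul,
            smul_zero]
          exact Additive.ofMul.injective (sub_eq_zero.1 h6)
      · rw [if_neg (fun h6 => h4 h6.1), if_neg h4, zero_smul, smul_zero]
    unfold labu
    rw [Finset.sum_filter, Finset.sum_congr rfl h2, ← Finset.smul_sum, Finset.sum_comm,
      smul_comm]
    congr 1
    rw [Finset.smul_sum]
    refine Finset.sum_congr rfl fun ψ _ => ?_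
    rw [smul_apply, _root_.sum_apply, smul_comm]
    congr 1
    rw [Finset.smul_sum]
    refine Finset.sum_congr rfl fun n _ => ?_
    rw [smul_apply, mul_smul]
  simp only [h1]
  have h2 : Tendsto (fun N : ℕ => ∑ ψ : AddChar (Additive (ZMod Q)ˣ) ℂ,
        ψ (-(Additive.ofMul v)) • ((N : ℂ)⁻¹ • ∑ n ∈ Ioc 0 N, cm (bu c Q ψ) n • u n) F) atTop
        (𝓝 (∑ ψ : AddChar (Additive (ZMod Q)ˣ) ℂ, ψ (-(Additive.ofMul v)) • (0 : H))) :=
    tendsto_finsetSum _ fun ψ _ => (fape_A c Q hQ hu hF ψ).const_smul _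
  have h3 := h2.const_smul ((Fintype.card (Additive (ZMod Q)ˣ) : ℂ)⁻¹)
  simpa only [smul_zero, Finset.sum_const_zero] using h3

theorem fape_C (hQ : 0 < Q) {u : ℕ → H →L[ℂ] H} (hu : FG c u) {F : H}
    (hF : ∀ y, Fx u y → ⟪y, F⟫_ℂ = 0) (s₀ : ℕ) (v : (ZMod Q)ˣ) :
    Tendsto (fun N : ℕ => (N : ℂ)⁻¹ • ∑ n ∈ labu c Q N s₀ v, u n F) atTop (𝓝 0) := by
  classical
  by_cases hne : ∃ n, 0 < n ∧ sp c Q n = s₀
  · obtain ⟨n, hn, hns⟩ := hne
    have hs0 : 0 < s₀ := by rw [← hns]; exact sp_pos c Q hn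
    have hs1 : sp c Q s₀ = s₀ := by rw [← hns]; exact sp_sp c Q hn
    have hs2 : un c Q s₀ = 1 := by rw [← hns]; exact un_sp c Q hn
    have h1 := (fape_B c Q hQ hu hF v).comp (Nat.tendsto_div_const_atTop hs0.ne')
    rw [tendsto_zero_iff_norm_tendsto_zero] at h1 ⊢
    refine squeeze_zero (fun _ => norm_nonneg _) (fun N => ?_) h1
    rw [labu_sum c Q _ hs0 hs1 hs2]
    have h2 : ∑ n ∈ labu c Q (N / s₀) 1 v, u (s₀ * n) F =
        u s₀ (∑ n ∈ labu c Q (N / s₀) 1 v, u n F) := by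
      rw [map_sum]
      refine Finset.sum_congr rfl fun n hn => ?_
      rw [mem_labu] at hn
      rw [hu.mul _ _ hs0 hn.1.1]; rfl
    rw [h2]
    simp only [Function.comp_apply]
    rw [norm_smul, norm_smul, uni_norm (hu.uni s₀ hs0), norm_inv, norm_inv,
      Complex.norm_natCast, Complex.norm_natCast]
    rcases Nat.eq_zero_or_pos (N / s₀) with h0 | h0
    · rw [h0]
      have : labu c Q 0 1 v = ∅ := by
        rw [Finset.eq_empty_iff_forall_notMem]
        intro n hn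
        rw [mem_labu] at hn
        omega
      rw [this]; simp
    · refine mul_le_mul_of_nonneg_right ?_ (norm_nonneg _)
      refine inv_anti₀ (by exact_mod_cast h0) ?_
      exact_mod_cast Nat.div_le_self N s₀
  · have : ∀ N, labu c Q N s₀ v = ∅ := by
      intro N
      rw [Finset.eq_empty_iff_forall_notMem]
      intro n hn
      rw [mem_labu] at hn
      exact hne ⟨n, hn.1.1, hn.2.1⟩
    simp only [this, Finset.sum_empty, smul_zero]
    exact tendsto_const_nhds

end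

/-- vectors orthogonal to the fixed ones have vanishing averages -/
theorem fape_of_orth {r : ℕ} (c : ℕ → Fin r) {u : ℕ → H →L[ℂ] H} (hu : FG c u) {F : H}
    (hF : ∀ y, Fx u y → ⟪y, F⟫_ℂ = 0) : Ape u F := by
  classical
  intro Q hQ a
  have : NeZero Q := ⟨hQ.ne'⟩
  rw [Metric.tendsto_atTop]
  intro ε hε
  have hF0 := norm_nonneg F
  obtain ⟨M, hM0, hME, hMc⟩ := good (spa_Sp c Q hQ) (ε / (2 * (‖F‖ + 1))) (by positivity)
  set T : Finset (ℕ × (ZMod Q)ˣ) := (M.divisors ×ˢ (Finset.univ : Finset (ZMod Q)ˣ)).filter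
    (fun x => (x.1 : ZMod Q) * ((x.2 : (ZMod Q)ˣ) : ZMod Q) = a) with hT
  have h1 : Tendsto (fun N : ℕ => ∑ x ∈ T, (N : ℂ)⁻¹ • ∑ n ∈ labu c Q N x.1 x.2, u n F) atTop
      (𝓝 0) := by
    rw [← Finset.sum_const_zero (s := T)]
    exact tendsto_finsetSum _ fun x _ => fape_C c Q hQ hu hF x.1 x.2
  obtain ⟨N₀, h0⟩ := (Metric.tendsto_atTop.1 h1) (ε / 2) (by positivity)
  refine ⟨max N₀ 1, fun N hN => ?_⟩
  have hN1 : 0 < N := (le_max_right _ _).trans hN
  have hNpos : (0 : ℝ) < N := by exact_mod_cast hN1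
  have h2 := h0 N ((le_max_left _ _).trans hN)
  rw [dist_zero_right] at h2 ⊢
  have hsplit : ∑ k ∈ (Ioc 0 N).filter (fun k : ℕ => (k : ZMod Q) = a), u k F =
      (∑ x ∈ T, ∑ n ∈ labu c Q N x.1 x.2, u n F) +
      ∑ k ∈ (Ioc 0 N).filter (fun k : ℕ => (k : ZMod Q) = a ∧ ¬ sp c Q k ∣ M), u k F := by
    rw [← Finset.sum_filter_add_sum_filter_not ((Ioc 0 N).filter (fun k : ℕ => (k : ZMod Q) = a))
      (fun k => sp c Q k ∣ M), Finset.filter_filter, Finset.filter_filter]
    congr 1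
    have hmap : ∀ k ∈ (Ioc 0 N).filter (fun k : ℕ => (k : ZMod Q) = a ∧ sp c Q k ∣ M),
        (sp c Q k, un c Q k) ∈ T := by
      intro k hk
      rw [mem_filter, mem_Ioc] at hk
      rw [hT, mem_filter, mem_product, Nat.mem_divisors]
      refine ⟨⟨⟨hk.2.2, hM0.ne'⟩, Finset.mem_univ _⟩, ?_⟩
      rw [← res_eq c Q hk.1.1]; exact hk.2.1
    rw [← Finset.sum_fiberwise_of_maps_to hmap]
    refine Finset.sum_congr rfl fun x hx => Finset.sum_congr ?_ fun _ _ => rfl
    ext k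
    rw [mem_filter, mem_filter, mem_labu, mem_Ioc]
    rw [hT, mem_filter, mem_product, Nat.mem_divisors] at hx
    constructor
    · rintro ⟨⟨h3, _, _⟩, h4⟩
      exact ⟨h3, congrArg Prod.fst h4, congrArg Prod.snd h4⟩
    · rintro ⟨h3, h4, h5⟩
      refine ⟨⟨h3, ?_, ?_⟩, Prod.ext h4 h5⟩
      · rw [res_eq c Q h3.1, h4, h5]; exact hx.2
      · rw [h4]; exact hx.1.1.1
  rw [hsplit, smul_add, Finset.smul_sum]
  refine (norm_add_le _ _).trans_lt ?_
  have h3 : ‖(N : ℂ)⁻¹ • ∑ k ∈ (Ioc 0 N).filter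
      (fun k : ℕ => (k : ZMod Q) = a ∧ ¬ sp c Q k ∣ M), u k F‖ ≤ ε / 2 := by
    rw [norm_smul, norm_inv, Complex.norm_natCast]
    have h4 : ‖∑ k ∈ (Ioc 0 N).filter
        (fun k : ℕ => (k : ZMod Q) = a ∧ ¬ sp c Q k ∣ M), u k F‖ ≤
        (ε / (2 * (‖F‖ + 1)) * N) * ‖F‖ := by
      refine (norm_sum_le _ _).trans ?_
      have h5 : ∀ k ∈ (Ioc 0 N).filter (fun k : ℕ => (k : ZMod Q) = a ∧ ¬ sp c Q k ∣ M),
          ‖u k F‖ ≤ ‖F‖ := by
        intro k hk
        rw [mem_filter, mem_Ioc] at hk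
        exact (uni_norm (hu.uni k hk.1.1) F).le
      refine (Finset.sum_le_sum h5).trans ?_
      rw [Finset.sum_const, nsmul_eq_mul]
      refine mul_le_mul_of_nonneg_right ((Nat.cast_le.2 (Finset.card_le_card ?_)).trans (hMc N)) hF0
      intro k hk
      rw [mem_filter] at hk ⊢
      exact ⟨hk.1, hk.2.2⟩
    calc (N : ℝ)⁻¹ * _ ≤ (N : ℝ)⁻¹ * ((ε / (2 * (‖F‖ + 1)) * N) * ‖F‖) :=
          mul_le_mul_of_nonneg_left h4 (by positivity)
      _ = ε / 2 * (‖F‖ / (‖F‖ + 1)) := by field_simp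
      _ ≤ ε / 2 * 1 := by
          refine mul_le_mul_of_nonneg_left ?_ (by positivity)
          rw [div_le_one (by positivity)]; linarith
      _ = ε / 2 := by ring
  linarith


section sn

open MeasureTheory

variable {X : Type*} [MeasurableSpace X] [StandardBorelSpace X] {μ : Measure X}
  [IsProbabilityMeasure μ]
variable {r : ℕ} {c : ℕ → Fin r} {T : ℕ → X → X}

/-- the averages vanish on the vectors orthogonal to the fixed ones -/
theorem SN_forth (h : Sys c μ T) {F1 F2 F4 : X → ℂ} (h1 : BM F1) (h2 : BM F2) (h4 : BM F4)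
    {F : Lp ℂ 2 μ} (hF : ∀ y, Fx (koop μ T) y → ⟪y, F⟫_ℂ = 0) :
    Tendsto (fun N => SN μ T F1 F2 F4 N F) atTop (𝓝 0) := by
  classical
  obtain ⟨C1, hC1, hF1⟩ := h1.2
  obtain ⟨C2, hC2, hF2⟩ := h2.2
  obtain ⟨C4, hC4, hF4⟩ := h4.2
  obtain ⟨i, hi⟩ := exists_big c
  have hape := fape_of_orth c h.FG hF
  have hv : ApeS (fun k => koop μ T k F) := by
    intro Q hQ a
    refine (hape Q hQ a).congr fun N => ?_
    congr 1
    refine Finset.sum_congr ?_ fun _ _ => rfl
    ext k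
    simp only [mem_filter]
  have hmain := tk_main (v := fun k => koop μ T k F) (D := ‖F‖)
    (fun k hk => (koop_norm (h.mp k hk) F).le) hv hi
    (fun m n => mulB μ (ww T F1 F2 F4 m n)) (B := C1 * (C2 * C4)) (by positivity)
    (fun m n x hm hn => mulB_norm (ww_BM h h1 h2 h4 hm hn) (ww_bound hF1 hF2 hF4 hC1 hC2 m n) x)
    (fun p q hp hq hpi hqi m n hm hn => by
      have hmn := Nat.mul_pos hm hn
      refine mulB_congr (ww_BM h h1 h2 h4 (Nat.mul_pos hp.pos hm) hn)
        (ww_BM h h1 h2 h4 (Nat.mul_pos hq.pos hm) hn) ?_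
      have hpq := h.fg p q hp hq (hpi.trans hqi.symm)
      filter_upwards [h.mul p m hp.pos hm, h.mul q m hq.pos hm, h.mul p (m * n) hp.pos hmn,
        h.mul q (m * n) hq.pos hmn, (h.mp m hm).quasiMeasurePreserving.ae hpq,
        (h.mp (m * n) hmn).quasiMeasurePreserving.ae hpq] with x e1 e2 e3 e4 e5 e6
      unfold ww
      rw [mul_assoc p m n, mul_assoc q m n, e1, e2, e3, e4, e5, e6])
  refine hmain.congr fun N => ?_
  rw [SN_apply]

end sn

end Pool.Agent.H18.QA
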