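import Pool.Agent.H18.QA.Pair

/-! The lower bound. -/

set_option autoImplicit false
set_option linter.unusedSectionVars false

namespace Pool.Agent.H18.QA

open Finset Filter Topology MeasureTheory ProbabilityTheory
open scoped InnerProductSpace ENNReal NNReal
open Pool.Agent.K7.H83.MA

variable {X : Type*} [MeasurableSpace X] [StandardBorelSpace X] {μ : Measure X}
  [IsProbabilityMeasure μ]
variable {r : ℕ} {c : ℕ → Fin r} {T : ℕ → X → X}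

/-- the vectors -/
noncomputable def vv (μ : Measure X) [IsProbabilityMeasure μ] (T : ℕ → X → X) (A : Set X)
    (m : ℕ) : Lp ℂ 2 μ := gv μ T m (chi A) (chi A)

theorem vv_norm (h : Sys c μ T) {A : Set X} (hA : MeasurableSet A) {m : ℕ} (hm : 0 < m) :
    ‖vv μ T A m‖ ≤ 1 := by
  unfold vv gv
  refine bl_norm_le (gv_BM h hm (chi_BM hA) (chi_BM hA)) zero_le_one fun x => ?_
  rw [norm_mul]
  calc _ ≤ (1 : ℝ) * 1 := mul_le_mul (chi_le A x) (chi_le A _) (norm_nonneg _) zero_le_one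
    _ = 1 := one_mul _

/-- comparison of sums -/
theorem RR_low (t : ℕ → ℕ → ℝ) (ht : ∀ m n, 0 < m → 0 < n → 0 ≤ t m n) {N D : ℕ} (hD : 0 < D)
    (M W : Finset ℕ) (hM : M ⊆ Ioc 0 N) (hW : W ⊆ Ioc 0 (N / D)) :
    ∑ m ∈ M, ∑ n ∈ W, t m (D * n) ≤ ∑ m ∈ Ioc 0 N, ∑ n ∈ Ioc 0 N, t m n := by
  classical
  have h1 : ∀ m ∈ M, ∑ n ∈ W, t m (D * n) ≤ ∑ n ∈ Ioc 0 N, t m n := by
    intro m hm
    have hm0 := (mem_Ioc.1 (hM hm)).1
    have h2 : ∑ n ∈ W, t m (D * n) = ∑ n ∈ W.image (fun n => D * n), t m n := by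
      rw [Finset.sum_image]
      intro a _ b _ hab
      exact Nat.eq_of_mul_eq_mul_left hD hab
    rw [h2]
    refine Finset.sum_le_sum_of_subset_of_nonneg (fun k hk => ?_) fun k hk _ => ?_
    · rw [Finset.mem_image] at hk
      obtain ⟨n, hn, rfl⟩ := hk
      have h3 := mem_Ioc.1 (hW hn)
      rw [mem_Ioc]
      refine ⟨Nat.mul_pos hD h3.1, ?_⟩
      exact (Nat.mul_le_mul_left D h3.2).trans (Nat.mul_div_le N D)
    · exact ht m k hm0 (mem_Ioc.1 hk).1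
  refine (Finset.sum_le_sum h1).trans ?_
  refine Finset.sum_le_sum_of_subset_of_nonneg hM fun m hm _ => ?_
  exact Finset.sum_nonneg fun n hn => ht m n (mem_Ioc.1 hm).1 (mem_Ioc.1 hn).1

open scoped Classical in
/-- few bad integers -/
theorem bad_count {E : ℕ → Prop} {ε₁ : ℝ} {Q D : ℕ} (hD : 0 < D)
    (hDQ : ∀ m : ℕ, m ≡ 1 [MOD Q] → Nat.Coprime m D)
    (hcnt : ∀ v : ℕ, Nat.Coprime v D → ∃ N₀ : ℕ, ∀ N : ℕ, N₀ ≤ N →
      (((Ioc 0 N).filter fun k => k ≡ v [MOD D] ∧ ∃ p : ℕ, p.Prime ∧ E p ∧ p ∣ k).card : ℝ) ≤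
          ε₁ * (N / D)) :
    ∃ N₀ : ℕ, ∀ N : ℕ, N₀ ≤ N → ∀ m ∈ MM Q N,
      (((Ioc 0 (N / D)).filter fun n => ∃ p : ℕ, p.Prime ∧ E p ∧ p ∣ m + D * n).card : ℝ) ≤
          2 * ε₁ * (N / D) := by
  classical
  choose! N₁ hN₁ using hcnt
  refine ⟨∑ v ∈ range D, N₁ v, fun N hN m hm => ?_⟩
  rw [mem_MM] at hm
  set v : ℕ := m % D with hv
  have hvm : v ≡ m [MOD D] := Nat.mod_modEq m D
  have hvc : Nat.Coprime v D := by
    unfold Nat.Coprime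
    rw [hvm.gcd_eq]
    exact hDQ m hm.2
  have hvD : v ∈ range D := Finset.mem_range.2 (Nat.mod_lt _ hD)
  have h1 : N₁ v ≤ ∑ v ∈ range D, N₁ v :=
    Finset.single_le_sum (f := N₁) (fun _ _ => Nat.zero_le _) hvD
  have h2 := hN₁ v hvc (2 * N) (by omega)
  have h3 : ε₁ * (((2 * N : ℕ) : ℝ) / D) = 2 * ε₁ * (N / D) := by push_cast; ring
  rw [h3] at h2
  refine le_trans (Nat.cast_le.2 ?_) h2
  refine Finset.card_le_card_of_injOn (fun n => m + D * n) (fun n hn => ?_) (fun a _ b _ hab => ?_)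
  · rw [Finset.mem_coe, mem_filter, mem_Ioc] at hn
    beta_reduce
    rw [Finset.mem_coe, mem_filter, mem_Ioc]
    obtain ⟨⟨h4, h5⟩, h6⟩ := hn
    have h7 : D * n ≤ N := (Nat.mul_le_mul_left D h5).trans (Nat.mul_div_le N D)
    refine ⟨⟨by omega, by omega⟩, ?_, h6⟩
    have h8 : m + D * n ≡ m + 0 [MOD D] :=
      Nat.ModEq.add_left m ((Nat.modEq_zero_iff_dvd).2 (Dvd.intro _ rfl))
    exact h8.trans hvm.symm
  · beta_reduce at hab
    exact Nat.eq_of_mul_eq_mul_left hD (by omega)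

open scoped Classical in
/-- the bound for the pairs with a given power -/
theorem pair_bound (h : Sys c μ T) {π : Fin r → ℕ} (hπ : Rep c π) {d₀ : ℝ}
    (hs₀ : Seq (qq c 1 π) (WW c) (rr c 1 π) d₀) (hd₀ : 0 < d₀) {A A' : Set X}
    (hA : MeasurableSet A) (hA' : MeasurableSet A') (hsub : A' ⊆ A) {F : Lp ℂ 2 μ}
    (hF : ∀ᵐ x ∂μ, posf (F x) = F x) (hF1 : ‖F‖ ≤ 1) {δ : ℝ} (hδ0 : 0 ≤ δ) (hδ1 : δ ≤ 1)
    (hδ : ∀ x ∈ A', δ ≤ (F x).re) {y : Lp ℂ 2 μ} {Qy : ℕ} {E : ℕ → Prop}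
    (hy : ∀ k : ℕ, 0 < k → k ≡ 1 [MOD Qy] → (∀ p : ℕ, p.Prime → p ∣ k → ¬ E p) →
      koop μ T k y = y) {η : ℝ} (hyd : ‖F - y‖ ≤ η) {ε₁ : ℝ} (hε₁ : 0 < ε₁) {Q D : ℕ} (hQ : 0 < Q)
    (hD : 0 < D) (hQyQ : Qy ∣ Q) (hQD : Q ∣ D) (hDQ : ∀ m : ℕ, m ≡ 1 [MOD Q] → Nat.Coprime m D)
    (hcnt : ∀ v : ℕ, Nat.Coprime v D → ∃ N₀ : ℕ, ∀ N : ℕ, N₀ ≤ N →
      (((Ioc 0 N).filter fun k => k ≡ v [MOD D] ∧ ∃ p : ℕ, p.Prime ∧ E p ∧ p ∣ k).card : ℝ) ≤
          ε₁ * (N / D)) (ε₂ : ℝ) (hε₂ : 0 < ε₂) :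
    ∃ N₀ : ℕ, ∀ N : ℕ, N₀ ≤ N →
      δ * d₀ * ((N : ℝ)⁻¹ * ∑ m ∈ MM Q N, (⟪PI (koop μ T) (qq c 1 π) (vv μ T A' m),
        koop μ T D (PI (koop μ T) (qq c 1 π) (vv μ T A' m))⟫_ℂ).re) -
        (2 * η + 4 * ε₁) / Q - ε₂ ≤ D * RR μ T A F N := by
  classical
  have hη0 : 0 ≤ η := (norm_nonneg _).trans hyd
  have hQr : (0 : ℝ) < Q := by exact_mod_cast hQ
  have hDr : (0 : ℝ) < D := by exact_mod_cast hD
  obtain ⟨N₁, hN₁⟩ := bad_count hD hDQ hcnt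
  obtain ⟨N₂, hN₂⟩ := unif_all h hπ hs₀ hd₀ (chi_BM hA') (ε₂ / 4) (by positivity)
  obtain ⟨N₃, hN₃⟩ := (Metric.tendsto_atTop.1 hs₀.dens) (ε₂ / 4) (by positivity)
  obtain ⟨N₄, hN₄⟩ := exists_nat_ge (4 * (d₀ * D) / ε₂)
  obtain ⟨N₅, hN₅⟩ := exists_nat_ge (4 * (2 * η + 4 * ε₁) / ε₂)
  refine ⟨N₁ + (N₂ + N₃ + 1) * D + N₂ + N₄ + N₅ + 1, fun N hN => ?_⟩
  have hDge : N₂ + N₃ + 1 ≤ N / D := by
    rw [Nat.le_div_iff_mul_le hD]; omega
  set K : ℕ := N / D with hK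
  have hKpos : 0 < K := by omega
  have hNpos : (0 : ℝ) < N := by exact_mod_cast (by omega : 0 < N)
  have hKr : (0 : ℝ) < K := by exact_mod_cast hKpos
  have hKle : (K : ℝ) ≤ N / D := Nat.cast_div_le
  have hKge : (N : ℝ) / D - 1 ≤ K := by
    have h1 : N < D * (K + 1) := by
      have := Nat.lt_mul_div_succ N hD
      exact this
    have h2 : (N : ℝ) < D * (K + 1) := by exact_mod_cast h1
    rw [sub_le_iff_le_add, div_le_iff₀ hDr]
    linarith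
  set w : ℕ → Lp ℂ 2 μ := fun m => PI (koop μ T) (qq c 1 π) (vv μ T A' m) with hw
  set ρ : ℕ → ℝ := fun m => (⟪w m, koop μ T D (w m)⟫_ℂ).re with hρ
  set e : ℕ → ℝ := fun m => ‖avg (koop μ T) (WW c) (rr c 1 π) K (vv μ T A' m - w m)‖ with he
  have hw1 : ∀ m, 0 < m → ‖w m‖ ≤ 1 := fun m hm =>
    (PI_norm (q := qq c 1 π) (koop μ T) _).trans (vv_norm h hA' hm)
  have hρ1 : ∀ m, 0 < m → |ρ m| ≤ 1 := by
    intro m hm
    have h1 := (Complex.abs_re_le_norm (⟪w m, koop μ T D (w m)⟫_ℂ)).trans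
      (norm_inner_le_norm (𝕜 := ℂ) (w m) (koop μ T D (w m)))
    rw [koop_norm (h.mp D hD)] at h1
    have h2 := hw1 m hm
    have h3 : ‖w m‖ * ‖w m‖ ≤ 1 * 1 := mul_le_mul h2 h2 (norm_nonneg _) zero_le_one
    linarith
  -- the terms
  set t : ℕ → ℕ → ℝ := fun m n => (⟪ci μ (BBs T A m n), koop μ T (m + n) F⟫_ℂ).re with ht
  have hWsub : WW c K ⊆ Ioc 0 K := fun n hn => mem_Ioc.2 (mem_WW.1 hn).1
  have hMsub : MM Q N ⊆ Ioc 0 N := fun n hn => mem_Ioc.2 (mem_MM.1 hn).1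
  have hlow := RR_low t (fun m n hm hn => term_nonneg h hA hF hm hn) hD (MM Q N) (WW c K) hMsub
    hWsub
  -- the inner sums
  have hcardW : |((WW c K).card : ℝ) - d₀ * (N / D)| ≤ ε₂ / 4 * (N / D) + d₀ := by
    have h1 := hN₃ K (by omega)
    rw [Real.dist_eq] at h1
    have h2 : |((WW c K).card : ℝ) - d₀ * K| ≤ ε₂ / 4 * K := by
      have h3 : ((WW c K).card : ℝ) - d₀ * K = (((WW c K).card : ℝ) / K - d₀) * K := by
        field_simp
      rw [h3, abs_mul, abs_of_pos hKr]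
      exact mul_le_mul_of_nonneg_right h1.le hKr.le
    have h3 : |d₀ * K - d₀ * (N / D)| ≤ d₀ := by
      rw [← mul_sub, abs_mul, abs_of_pos hd₀]
      have h4 : |(K : ℝ) - N / D| ≤ 1 := by
        rw [abs_le]; constructor <;> linarith
      calc d₀ * |(K : ℝ) - N / D| ≤ d₀ * 1 := mul_le_mul_of_nonneg_left h4 hd₀.le
        _ = d₀ := mul_one _
    have h4 : ((WW c K).card : ℝ) - d₀ * (N / D) =
        (((WW c K).card : ℝ) - d₀ * K) + (d₀ * K - d₀ * (N / D)) := by ring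
    rw [h4]
    refine (abs_add_le _ _).trans ?_
    have h5 : ε₂ / 4 * K ≤ ε₂ / 4 * (N / D) := mul_le_mul_of_nonneg_left hKle (by positivity)
    linarith
  set R : ℝ := ε₂ / 4 * (N / D) + d₀ with hR
  set ζ : ℝ := 2 * η + 4 * ε₁ with hζ
  have hR0 : 0 ≤ R := by positivity
  have hζ0 : 0 ≤ ζ := by positivity
  have hinner : ∀ m ∈ MM Q N, δ * (d₀ * (N / D)) * ρ m - R - (N / D) * e m - ζ * (N / D) ≤
      ∑ n ∈ WW c K, t m (D * n) := by
    intro m hm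
    have hm' := mem_MM.1 hm
    have hm0 := hm'.1.1
    set bad : Finset ℕ := (Ioc 0 K).filter fun n => ∃ p : ℕ, p.Prime ∧ E p ∧ p ∣ m + D * n
      with hbad
    have h1 : ∀ n ∈ WW c K, δ * (⟪vv μ T A' m, koop μ T (D * n) (vv μ T A' m)⟫_ℂ).re -
        (2 * η + if n ∈ bad then 2 else 0) ≤ t m (D * n) := by
      intro n hn
      have hn' := mem_WW.1 hn
      have hn0 := hn'.1.1
      have hDn : 0 < D * n := Nat.mul_pos hD hn0
      have h2 := term_low h hA hA' hsub hF hδ hm0 hDn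
      have h3 : ‖koop μ T (m + D * n) F - F‖ ≤ 2 * η + if n ∈ bad then 2 else 0 := by
        split_ifs with h4
        · have h5 : ‖koop μ T (m + D * n) F - F‖ ≤ 2 := by
            refine (norm_sub_le _ _).trans ?_
            rw [koop_norm (h.mp _ (by omega))]
            linarith
          linarith
        · rw [add_zero]
          refine close_fix h hyd (by omega) (hy _ (by omega) ?_ fun p hp hpk hEp => h4 ?_)
          · have h5 : m + D * n ≡ 1 + 0 [MOD Q] :=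
              hm'.2.add ((Nat.modEq_zero_iff_dvd).2 (hQD.trans (Dvd.intro _ rfl)))
            exact h5.of_dvd hQyQ
          · rw [hbad, mem_filter, mem_Ioc]
            exact ⟨hn'.1, p, hp, hEp, hpk⟩
      have h4 : δ * (⟪vv μ T A' m, koop μ T (D * n) (vv μ T A' m)⟫_ℂ).re -
        ‖koop μ T (m + D * n) F - F‖ ≤ t m (D * n) := h2
      linarith
    have h2 := Finset.sum_le_sum h1
    rw [Finset.sum_sub_distrib, ← Finset.mul_sum, Finset.sum_add_distrib, Finset.sum_const,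
      nsmul_eq_mul] at h2
    have h3 : ∑ n ∈ WW c K, (if n ∈ bad then (2 : ℝ) else 0) ≤ 2 * (2 * ε₁ * (N / D)) := by
      rw [← Finset.sum_filter, Finset.sum_const, nsmul_eq_mul]
      have h4 : (((WW c K).filter fun n => n ∈ bad).card : ℝ) ≤ 2 * ε₁ * (N / D) := by
        refine le_trans (Nat.cast_le.2 (Finset.card_le_card fun n hn => ?_))
          (hN₁ N (by omega) m hm)
        exact (mem_filter.1 hn).2
      linarith
    have h4 : ((WW c K).card : ℝ) * (2 * η) ≤ (N / D) * (2 * η) := by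
      refine mul_le_mul_of_nonneg_right ?_ (by positivity)
      exact (card_le_of_sub hs₀.sub K).trans hKle
    have h5 := sum_WW h hπ hs₀ (vv μ T A' m) (vv_norm h hA' hm0) hD hKpos
    have h6 : ((WW c K).card : ℝ) * ρ m - K * e m ≤
        ∑ n ∈ WW c K, (⟪vv μ T A' m, koop μ T (D * n) (vv μ T A' m)⟫_ℂ).re := h5
    have h7 : d₀ * (N / D) * ρ m - R ≤ ((WW c K).card : ℝ) * ρ m := by
      have h8 : |(((WW c K).card : ℝ) - d₀ * (N / D)) * ρ m| ≤ R * 1 := by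
        rw [abs_mul]
        exact mul_le_mul hcardW (hρ1 m hm0) (abs_nonneg _) hR0
      have h9 := neg_abs_le ((((WW c K).card : ℝ) - d₀ * (N / D)) * ρ m)
      linarith
    have h8 : (K : ℝ) * e m ≤ (N / D) * e m := mul_le_mul_of_nonneg_right hKle (norm_nonneg _)
    have h9 : d₀ * (N / D) * ρ m - (R + (N / D) * e m) ≤
        ∑ n ∈ WW c K, (⟪vv μ T A' m, koop μ T (D * n) (vv μ T A' m)⟫_ℂ).re := by linarith
    have h10 := mul_le_mul_of_nonneg_left h9 hδ0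
    have he0 : 0 ≤ e m := norm_nonneg _
    have h11 : δ * (R + (N / D) * e m) ≤ 1 * (R + (N / D) * e m) :=
      mul_le_mul_of_nonneg_right hδ1 (by positivity)
    have h12 : ζ * (N / D) = (N / D) * (2 * η) + 2 * (2 * ε₁ * (N / D)) := by rw [hζ]; ring
    rw [h12]
    linarith
  have hsum := (Finset.sum_le_sum hinner).trans hlow
  rw [Finset.sum_sub_distrib, Finset.sum_sub_distrib, Finset.sum_sub_distrib, ← Finset.mul_sum,
    ← Finset.mul_sum, Finset.sum_const, Finset.sum_const, nsmul_eq_mul, nsmul_eq_mul] at hsum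
  -- the average of the errors
  have hes : ∑ m ∈ MM Q N, e m ≤ N * (ε₂ / 4) := by
    have h1 := hN₂ N K (by omega) (by omega)
    have h2 : ∑ m ∈ MM Q N, e m ≤ ∑ m ∈ Ioc 0 N, e m :=
      Finset.sum_le_sum_of_subset_of_nonneg hMsub fun m _ _ => norm_nonneg _
    have h3 : (N : ℝ)⁻¹ * ∑ m ∈ Ioc 0 N, e m ≤ ε₂ / 4 := h1
    rw [inv_mul_le_iff₀ hNpos] at h3
    exact h2.trans h3
  have hMM : ((MM Q N).card : ℝ) ≤ N / Q + 1 := ap_card_le N Q 1 hQ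
  have hMN : ((MM Q N).card : ℝ) ≤ N := by
    have := Finset.card_le_card hMsub
    rw [Nat.card_Ioc, Nat.sub_zero] at this
    exact_mod_cast this
  have hRR : D * RR μ T A F N = (N : ℝ)⁻¹ * ((D / N) * ∑ m ∈ Ioc 0 N, ∑ n ∈ Ioc 0 N, t m n) := by
    unfold RR
    rw [ht]
    ring
  rw [hRR, le_inv_mul_iff₀ hNpos]
  have h1 : (D / N : ℝ) * (δ * (d₀ * (N / D)) * ∑ m ∈ MM Q N, ρ m - (MM Q N).card * R -
      (N / D) * ∑ m ∈ MM Q N, e m - (MM Q N).card * (ζ * (N / D))) ≤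
      (D / N) * ∑ m ∈ Ioc 0 N, ∑ n ∈ Ioc 0 N, t m n :=
    mul_le_mul_of_nonneg_left hsum (by positivity)
  refine le_trans ?_ h1
  have h2 : (D / N : ℝ) * (δ * (d₀ * (N / D)) * ∑ m ∈ MM Q N, ρ m - (MM Q N).card * R -
      (N / D) * ∑ m ∈ MM Q N, e m - (MM Q N).card * (ζ * (N / D))) =
      δ * d₀ * ∑ m ∈ MM Q N, ρ m - (MM Q N).card * (ε₂ / 4) - (MM Q N).card * (d₀ * D / N) -
      ∑ m ∈ MM Q N, e m - (MM Q N).card * ζ := by
    rw [hR]
    field_simp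
    ring
  rw [h2]
  have h3 : ((MM Q N).card : ℝ) * (ε₂ / 4) ≤ N * (ε₂ / 4) :=
    mul_le_mul_of_nonneg_right hMN (by positivity)
  have h4 : ((MM Q N).card : ℝ) * (d₀ * D / N) ≤ N * (ε₂ / 4) := by
    have h5 : d₀ * D / N ≤ ε₂ / 4 := by
      have h6 : 4 * (d₀ * D) / ε₂ ≤ N := hN₄.trans (by exact_mod_cast (by omega : N₄ ≤ N))
      rw [div_le_iff₀ hε₂] at h6
      rw [div_le_iff₀ hNpos]
      linarith
    exact mul_le_mul hMN h5 (by positivity) hNpos.le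
  have h5 : ((MM Q N).card : ℝ) * ζ ≤ N * (ζ / Q) + N * (ε₂ / 4) := by
    have h6 : ((MM Q N).card : ℝ) * ζ ≤ (N / Q + 1) * ζ := mul_le_mul_of_nonneg_right hMM hζ0
    have h7 : ζ ≤ N * (ε₂ / 4) := by
      have h8 : 4 * ζ / ε₂ ≤ N := hN₅.trans (by exact_mod_cast (by omega : N₅ ≤ N))
      rw [div_le_iff₀ hε₂] at h8
      linarith
    have h8 : (N / Q + 1) * ζ = N * (ζ / Q) + ζ := by ring
    linarith
  have h6 : (N : ℝ) * (δ * d₀ * ((N : ℝ)⁻¹ * ∑ m ∈ MM Q N, ρ m) - ζ / Q - ε₂) =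
      δ * d₀ * ∑ m ∈ MM Q N, ρ m - N * (ζ / Q) - N * ε₂ := by
    field_simp
  change (N : ℝ) * (δ * d₀ * ((N : ℝ)⁻¹ * ∑ m ∈ MM Q N, ρ m) - ζ / Q - ε₂) ≤ _
  rw [h6]
  linarith

end Pool.Agent.H18.QA
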