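import Pool.Agent.H18.QA.Pos

/-! First moments along the integers congruent to one. -/

set_option autoImplicit false
set_option linter.unusedSectionVars false

namespace Pool.Agent.H18.QA

open Finset Filter Topology MeasureTheory ProbabilityTheory
open scoped InnerProductSpace ENNReal NNReal
open Pool.Agent.K7.H83.MA

/-- the integers up to `N` congruent to one -/
def MM (Q N : ℕ) : Finset ℕ := (Ioc 0 N).filter fun k => k ≡ 1 [MOD Q]

theorem mem_MM {Q N m : ℕ} : m ∈ MM Q N ↔ (0 < m ∧ m ≤ N) ∧ m ≡ 1 [MOD Q] := by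
  unfold MM; rw [mem_filter, mem_Ioc]

variable {X : Type*} [MeasurableSpace X] [StandardBorelSpace X] {μ : Measure X}
  [IsProbabilityMeasure μ]
variable {r : ℕ} {c : ℕ → Fin r} {T : ℕ → X → X}

theorem PK_perp (f : Lp ℂ 2 μ) {y : Lp ℂ 2 μ} (hy : Fx (koop μ T) y) :
    ⟪y, f - PK μ T f⟫_ℂ = 0 :=
  PK_orth f (Submodule.le_topologicalClosure _ hy)

/-- error of the invariance of vectors close to a fixed vector -/
theorem close_fix (h : Sys c μ T) {F y : Lp ℂ 2 μ} {η : ℝ} (hF : ‖F - y‖ ≤ η) {k : ℕ} (hk : 0 < k)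
    (hy : koop μ T k y = y) : ‖koop μ T k F - F‖ ≤ 2 * η := by
  have h1 : koop μ T k F - F = koop μ T k (F - y) - (F - y) := by
    rw [map_sub, hy]; abel
  rw [h1]
  refine (norm_sub_le _ _).trans ?_
  rw [koop_norm (h.mp k hk)]
  linarith

theorem first_moment (h : Sys c μ T) {B : Set X} (hB : MeasurableSet B) (ε : ℝ) (hε : 0 < ε) :
    ∃ Q₀ : ℕ, 0 < Q₀ ∧ ∀ Q : ℕ, 0 < Q → Q₀ ∣ Q → ∀ ε' : ℝ, 0 < ε' → ∃ N₀ : ℕ, ∀ N : ℕ, N₀ ≤ N →
      1 / (Q : ℝ) * (μ.real B ^ 2 - ε) - ε' ≤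
        (N : ℝ)⁻¹ * ∑ m ∈ MM Q N, (⟪ci μ B, koop μ T m (ci μ B)⟫_ℂ).re := by
  classical
  set f := ci μ B with hf
  set F := PK μ T f with hF
  have hf1 : ‖f‖ ≤ 1 := ci_norm hB
  have hF1 : ‖F‖ ≤ 1 := (PK_norm f).trans hf1
  obtain ⟨y, ⟨Qy, hQy, E, hE, hy⟩, hyd⟩ := PK_approx (μ := μ) (T := T) f (ε / 4) (by positivity)
  obtain ⟨P, hP⟩ := cnt_ap hE (ε / 4) (by positivity)
  refine ⟨Qy * P.factorial, Nat.mul_pos hQy (Nat.factorial_pos P), fun Q hQ hdvd ε' hε' => ?_⟩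
  have hQr : (0 : ℝ) < Q := by exact_mod_cast hQ
  have hQyQ : Qy ∣ Q := (Dvd.intro _ rfl).trans hdvd
  have hPQ : ∀ p : ℕ, p.Prime → E p → p ≤ P → p ∣ Q := fun p hp _ hpP =>
    ((hp.dvd_factorial).2 hpP).trans ((Dvd.intro_left _ rfl).trans hdvd)
  obtain ⟨N₁, hN₁⟩ := hP Q hQ hPQ 1 (Nat.coprime_one_left _)
  have hape := fape_of_orth c h.FG (F := f - F) (fun z hz => PK_perp f hz) Q hQ (1 : ZMod Q)
  obtain ⟨N₂, hN₂⟩ := (Metric.tendsto_atTop.1 hape) (ε' / 2) (by positivity)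
  set β : ℝ := (⟪f, F⟫_ℂ).re with hβ
  have hβB : μ.real B ^ 2 ≤ β := by
    have h3 := sq_le_PK (T := T) h f
    rw [inner_ci_one hB, Complex.norm_real, Real.norm_of_nonneg measureReal_nonneg] at h3
    exact h3
  set x : ℝ := β - 2 * (ε / 4) with hx
  obtain ⟨N₃, hN₃⟩ := exists_nat_ge (2 * |x| / ε')
  refine ⟨max (max N₁ N₂) N₃ + 1, fun N hN => ?_⟩
  have hN1 : N₁ ≤ N := by omega
  have hN2 : N₂ ≤ N := by omega
  have hN3 : N₃ ≤ N := by omega
  have hNpos : (0 : ℝ) < N := by exact_mod_cast (by omega : 0 < N)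
  -- the terms
  set bad : Finset ℕ := (Ioc 0 N).filter fun k => k ≡ 1 [MOD Q] ∧ ∃ p : ℕ, p.Prime ∧ E p ∧ p ∣ k
    with hbad
  have hterm : ∀ m ∈ MM Q N, (⟪f, koop μ T m (f - F)⟫_ℂ).re + x - (if m ∈ bad then 2 else 0) ≤
      (⟪f, koop μ T m f⟫_ℂ).re := by
    intro m hm
    rw [mem_MM] at hm
    have h1 : koop μ T m f = koop μ T m (f - F) + (F + (koop μ T m F - F)) := by
      rw [map_sub]; abel
    have h2 : (⟪f, koop μ T m f⟫_ℂ).re = (⟪f, koop μ T m (f - F)⟫_ℂ).re + β +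
        (⟪f, koop μ T m F - F⟫_ℂ).re := by
      rw [h1, inner_add_right, inner_add_right, Complex.add_re, Complex.add_re, hβ]; ring
    have h3 : -‖koop μ T m F - F‖ ≤ (⟪f, koop μ T m F - F⟫_ℂ).re := by
      have h4 := (Complex.abs_re_le_norm (⟪f, koop μ T m F - F⟫_ℂ)).trans
        (norm_inner_le_norm (𝕜 := ℂ) f (koop μ T m F - F))
      have h5 : ‖f‖ * ‖koop μ T m F - F‖ ≤ 1 * ‖koop μ T m F - F‖ :=
        mul_le_mul_of_nonneg_right hf1 (norm_nonneg _)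
      have h6 := neg_abs_le (⟪f, koop μ T m F - F⟫_ℂ).re
      linarith
    rw [h2, hx]
    split_ifs with hmb
    · have h4 : ‖koop μ T m F - F‖ ≤ 2 := by
        refine (norm_sub_le _ _).trans ?_
        rw [koop_norm (h.mp m hm.1.1)]
        linarith
      linarith
    · have h4 : koop μ T m y = y := by
        refine hy m hm.1.1 (hm.2.of_dvd hQyQ) fun p hp hpm hEp => hmb ?_
        rw [hbad, mem_filter, mem_Ioc]
        exact ⟨hm.1, hm.2, p, hp, hEp, hpm⟩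
      have h5 := close_fix h hyd hm.1.1 h4
      linarith
  have hsum := Finset.sum_le_sum hterm
  rw [Finset.sum_sub_distrib, Finset.sum_add_distrib, Finset.sum_const, nsmul_eq_mul] at hsum
  have hbadc : ∑ m ∈ MM Q N, (if m ∈ bad then (2 : ℝ) else 0) ≤ 2 * (ε / 4 * (N / Q)) := by
    rw [← Finset.sum_filter, Finset.sum_const, nsmul_eq_mul]
    have h1 : (((MM Q N).filter fun m => m ∈ bad).card : ℝ) ≤ ε / 4 * (N / Q) := by
      refine le_trans (Nat.cast_le.2 (Finset.card_le_card fun m hm => ?_)) (hN₁ N hN1)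
      exact (mem_filter.1 hm).2
    linarith
  have hcard : (N / Q : ℝ) * x - |x| ≤ ((MM Q N).card : ℝ) * x := by
    have h1 := ap_card N Q 1 hQ
    have h2 : |(((MM Q N).card : ℝ) - N / Q) * x| ≤ 1 * |x| := by
      rw [abs_mul]
      exact mul_le_mul_of_nonneg_right h1 (abs_nonneg _)
    have h3 := neg_abs_le ((((MM Q N).card : ℝ) - N / Q) * x)
    linarith
  have hort : -(N * (ε' / 2)) ≤ ∑ m ∈ MM Q N, (⟪f, koop μ T m (f - F)⟫_ℂ).re := by
    have h1 := hN₂ N hN2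
    rw [dist_zero_right] at h1
    have h2 : (Ioc 0 N).filter (fun k : ℕ => (k : ZMod Q) = 1) = MM Q N := by
      ext k
      rw [mem_filter, mem_MM, mem_Ioc]
      refine and_congr_right fun _ => ?_
      rw [← ZMod.natCast_eq_natCast_iff, Nat.cast_one]
    rw [h2, norm_smul, norm_inv, Complex.norm_natCast, inv_mul_lt_iff₀ hNpos] at h1
    have h3 : ∑ m ∈ MM Q N, (⟪f, koop μ T m (f - F)⟫_ℂ).re =
        (⟪f, ∑ m ∈ MM Q N, koop μ T m (f - F)⟫_ℂ).re := by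
      rw [inner_sum, Complex.re_sum]
    rw [h3]
    have h4 := (Complex.abs_re_le_norm (⟪f, ∑ m ∈ MM Q N, koop μ T m (f - F)⟫_ℂ)).trans
      (norm_inner_le_norm (𝕜 := ℂ) f (∑ m ∈ MM Q N, koop μ T m (f - F)))
    have h5 : ‖f‖ * ‖∑ m ∈ MM Q N, koop μ T m (f - F)‖ ≤
        1 * ‖∑ m ∈ MM Q N, koop μ T m (f - F)‖ :=
      mul_le_mul_of_nonneg_right hf1 (norm_nonneg _)
    have h6 := neg_abs_le (⟪f, ∑ m ∈ MM Q N, koop μ T m (f - F)⟫_ℂ).re
    linarith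
  have hx2 : |x| ≤ N * (ε' / 2) := by
    have h1 : 2 * |x| / ε' ≤ N := hN₃.trans (by exact_mod_cast hN3)
    rw [div_le_iff₀ hε'] at h1
    linarith
  have hfin : (N : ℝ) * (1 / (Q : ℝ) * (μ.real B ^ 2 - ε) - ε') ≤
      ∑ m ∈ MM Q N, (⟪f, koop μ T m f⟫_ℂ).re := by
    have h1 : (N : ℝ) * (1 / (Q : ℝ) * (μ.real B ^ 2 - ε)) ≤
        (N / Q : ℝ) * x - 2 * (ε / 4 * (N / Q)) := by
      have h2 : (N : ℝ) * (1 / (Q : ℝ) * (μ.real B ^ 2 - ε)) =
          (N / Q : ℝ) * (μ.real B ^ 2 - ε) := by ring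
      have h3 : (N / Q : ℝ) * x - 2 * (ε / 4 * (N / Q)) = (N / Q : ℝ) * (β - ε) := by
        rw [hx]; ring
      rw [h2, h3]
      exact mul_le_mul_of_nonneg_left (by linarith) (by positivity)
    linarith
  rw [le_inv_mul_iff₀ hNpos]
  exact hfin

end Pool.Agent.H18.QA
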