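import Pool.Agent.H18.QA.Mom

/-! Pairs of integers: lower bounds. -/

set_option autoImplicit false
set_option linter.unusedSectionVars false

namespace Pool.Agent.H18.QA

open Finset Filter Topology MeasureTheory ProbabilityTheory
open scoped InnerProductSpace ENNReal NNReal
open Pool.Agent.K7.H83.MA

variable {X : Type*} [MeasurableSpace X] [StandardBorelSpace X] {μ : Measure X}
  [IsProbabilityMeasure μ]
variable {r : ℕ} {c : ℕ → Fin r} {T : ℕ → X → X} {q : Fin r → ℕ}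

/-- the intersections -/
def BBs (T : ℕ → X → X) (A : Set X) (m n : ℕ) : Set X :=
  A ∩ T m ⁻¹' A ∩ T n ⁻¹' A ∩ T (m * n) ⁻¹' A

theorem BBs_meas (h : Sys c μ T) {A : Set X} (hA : MeasurableSet A) {m n : ℕ} (hm : 0 < m)
    (hn : 0 < n) : MeasurableSet (BBs T A m n) :=
  ((hA.inter ((h.mp m hm).measurable hA)).inter ((h.mp n hn).measurable hA)).inter
    ((h.mp _ (Nat.mul_pos hm hn)).measurable hA)

theorem BBs_mono {A A' : Set X} (hA : A' ⊆ A) (m n : ℕ) : BBs T A' m n ⊆ BBs T A m n := by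
  rintro x ⟨⟨⟨h1, h2⟩, h3⟩, h4⟩
  exact ⟨⟨⟨hA h1, hA h2⟩, hA h3⟩, hA h4⟩

/-- the averages of the intersections against a vector -/
noncomputable def RR (μ : Measure X) [IsProbabilityMeasure μ] (T : ℕ → X → X) (A : Set X)
    (g : Lp ℂ 2 μ) (N : ℕ) : ℝ :=
  (N : ℝ)⁻¹ * (N : ℝ)⁻¹ * ∑ m ∈ Ioc 0 N, ∑ n ∈ Ioc 0 N,
    (⟪ci μ (BBs T A m n), koop μ T (m + n) g⟫_ℂ).re

/-- the indicator function -/
noncomputable def chi (A : Set X) : X → ℂ := A.indicator fun _ => (1 : ℂ)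

theorem chi_BM {A : Set X} (hA : MeasurableSet A) : BM (chi A) := ind_BM hA

theorem chi_le (A : Set X) (x : X) : ‖chi A x‖ ≤ 1 := by
  unfold chi
  by_cases hx : x ∈ A <;> simp [hx]

theorem term_eq (h : Sys c μ T) {A : Set X} (hA : MeasurableSet A) {m n : ℕ} (hm : 0 < m)
    (hn : 0 < n) (y : Lp ℂ 2 μ) :
    ⟪ci μ A, mulB μ (ww T (chi A) (chi A) (chi A) m n) y⟫_ℂ = ⟪ci μ (BBs T A m n), y⟫_ℂ := by
  rw [L2.inner_def, L2.inner_def]
  refine integral_congr_ae ?_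
  filter_upwards [bl_coe (ind_BM hA), bl_coe (ind_BM (BBs_meas h hA hm hn)),
    mulB_coe (ww_BM h (chi_BM hA) (chi_BM hA) (chi_BM hA) hm hn) y] with x h1 h2 h3
  unfold ci
  rw [h1, h2, h3, RCLike.inner_apply, RCLike.inner_apply]
  unfold ww chi BBs
  by_cases e1 : x ∈ A
  · by_cases e2 : T m x ∈ A
    · by_cases e3 : T n x ∈ A
      · by_cases e4 : T (m * n) x ∈ A <;> simp [e1, e2, e3, e4]
      · simp [e1, e2, e3]
    · simp [e1, e2]
  · simp [e1]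

theorem RR_eq (h : Sys c μ T) {A : Set X} (hA : MeasurableSet A) (g : Lp ℂ 2 μ) (N : ℕ) :
    RR μ T A g N = (⟪ci μ A, SN μ T (chi A) (chi A) (chi A) N g⟫_ℂ).re := by
  rw [SN_apply, inner_smul_right, inner_sum]
  have h1 : ((N : ℂ)⁻¹ * (N : ℂ)⁻¹) = (((N : ℝ)⁻¹ * (N : ℝ)⁻¹ : ℝ) : ℂ) := by push_cast; ring
  rw [h1, Complex.re_ofReal_mul, Complex.re_sum]
  unfold RR
  congr 1
  refine Finset.sum_congr rfl fun m hm => ?_
  rw [inner_sum, Complex.re_sum]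
  refine Finset.sum_congr rfl fun n hn => ?_
  rw [mem_Ioc] at hm hn
  rw [term_eq h hA hm.1 hn.1]

/-- convergence -/
theorem RR_conv (h : Sys c μ T) {A : Set X} (hA : MeasurableSet A) (g : Lp ℂ 2 μ) :
    ∃ ℓ : ℝ, Tendsto (RR μ T A g) atTop (𝓝 ℓ) := by
  obtain ⟨V, hV⟩ := SN_conv h (chi_BM hA) (chi_BM hA) (chi_BM hA) g
  refine ⟨(⟪ci μ A, V⟫_ℂ).re, ?_⟩
  have h1 : Tendsto (fun N => (⟪ci μ A, SN μ T (chi A) (chi A) (chi A) N g⟫_ℂ).re) atTop
      (𝓝 (⟪ci μ A, V⟫_ℂ).re) :=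
    (Complex.continuous_re.tendsto _).comp
      ((tendsto_const_nhds (x := ci μ A)).inner hV)
  exact h1.congr fun N => (RR_eq h hA g N).symm

/-- the projection has the same limit -/
theorem RR_PK (h : Sys c μ T) {A : Set X} (hA : MeasurableSet A) (g : Lp ℂ 2 μ) :
    Tendsto (fun N => RR μ T A g N - RR μ T A (PK μ T g) N) atTop (𝓝 0) := by
  have h0 := SN_forth h (chi_BM hA) (chi_BM hA) (chi_BM hA) (F := g - PK μ T g)
    (fun y hy => PK_perp g hy)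
  have h1 : Tendsto (fun N => (⟪ci μ A, SN μ T (chi A) (chi A) (chi A) N (g - PK μ T g)⟫_ℂ).re)
      atTop (𝓝 (⟪ci μ A, (0 : Lp ℂ 2 μ)⟫_ℂ).re) :=
    (Complex.continuous_re.tendsto _).comp
      ((tendsto_const_nhds (x := ci μ A)).inner h0)
  rw [inner_zero_right, Complex.zero_re] at h1
  refine h1.congr fun N => ?_
  rw [RR_eq h hA, RR_eq h hA, map_sub, inner_sub_right, Complex.sub_re]

/-- the correlations -/
theorem gv_cor (h : Sys c μ T) {A : Set X} (hA : MeasurableSet A) {m n : ℕ} (hm : 0 < m)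
    (hn : 0 < n) : (⟪gv μ T m (chi A) (chi A), koop μ T n (gv μ T m (chi A) (chi A))⟫_ℂ).re =
      μ.real (BBs T A m n) := by
  have hg := gv_BM h hm (chi_BM hA) (chi_BM hA)
  have hB := BBs_meas h hA hm hn
  unfold gv
  rw [koop_bl (h.mp n hn) hg, inner_bl hg (hg.comp (h.mp n hn).measurable)]
  have h1 : ∫ x, (starRingEnd ℂ) (chi A x * chi A (T m x)) *
      (chi A (T n x) * chi A (T m (T n x))) ∂μ = ((μ.real (BBs T A m n) : ℝ) : ℂ) := by
    have h2 : ∫ x, (BBs T A m n).indicator (fun _ => (1 : ℂ)) x ∂μ =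
        ((μ.real (BBs T A m n) : ℝ) : ℂ) := by
      rw [integral_indicator hB, integral_const]
      simp
    rw [← h2]
    refine integral_congr_ae ?_
    filter_upwards [h.mul m n hm hn] with x h3
    rw [← h3]
    unfold chi BBs
    by_cases e1 : x ∈ A
    · by_cases e2 : T m x ∈ A
      · by_cases e3 : T n x ∈ A
        · by_cases e4 : T (m * n) x ∈ A <;> simp [e1, e2, e3, e4]
        · simp [e1, e2, e3]
      · simp [e1, e2]
    · simp [e1]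
  rw [h1, Complex.ofReal_re]

theorem koop_pos (h : Sys c μ T) {n : ℕ} (hn : 0 < n) {f : Lp ℂ 2 μ}
    (hf : ∀ᵐ x ∂μ, posf (f x) = f x) : ∀ᵐ x ∂μ, 0 ≤ (koop μ T n f x).re := by
  filter_upwards [koop_coe (h.mp n hn) f, (h.mp n hn).quasiMeasurePreserving.ae hf] with x h1 h2
  rw [h1]
  exact posf_re h2

/-- lower bound of the terms -/
theorem term_low (h : Sys c μ T) {A A' : Set X} (hA : MeasurableSet A) (hA' : MeasurableSet A')
    (hsub : A' ⊆ A) {F : Lp ℂ 2 μ} (hF : ∀ᵐ x ∂μ, posf (F x) = F x) {δ : ℝ}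
    (hδ : ∀ x ∈ A', δ ≤ (F x).re) {m n : ℕ} (hm : 0 < m) (hn : 0 < n) :
    δ * (⟪gv μ T m (chi A') (chi A'), koop μ T n (gv μ T m (chi A') (chi A'))⟫_ℂ).re -
      ‖koop μ T (m + n) F - F‖ ≤ (⟪ci μ (BBs T A m n), koop μ T (m + n) F⟫_ℂ).re := by
  have hB := BBs_meas h hA hm hn
  have hB' := BBs_meas h hA' hm hn
  have hint : ∀ y : Lp ℂ 2 μ, Integrable (fun x => (y x).re) μ := fun y =>
    ((Lp.memLp y).integrable (by norm_num)).re
  have h1 : (⟪ci μ (BBs T A' m n), koop μ T (m + n) F⟫_ℂ).re ≤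
      (⟪ci μ (BBs T A m n), koop μ T (m + n) F⟫_ℂ).re := by
    rw [inner_ci hB, inner_ci hB']
    refine setIntegral_mono_set (hint _).integrableOn ?_ (BBs_mono hsub m n).eventuallyLE
    exact ae_restrict_of_ae (koop_pos h (by omega) hF)
  refine le_trans ?_ h1
  have h2 : koop μ T (m + n) F = F + (koop μ T (m + n) F - F) := by abel
  rw [h2, inner_add_right, Complex.add_re, gv_cor h hA' hm hn, ← h2]
  have h3 : δ * μ.real (BBs T A' m n) ≤ (⟪ci μ (BBs T A' m n), F⟫_ℂ).re := by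
    rw [inner_ci hB']
    have h4 : ∫ _ in BBs T A' m n, δ ∂μ ≤ ∫ x in BBs T A' m n, (F x).re ∂μ := by
      refine setIntegral_mono_on (integrable_const δ).integrableOn (hint _).integrableOn hB' ?_
      intro x hx
      exact hδ x hx.1.1.1
    rw [setIntegral_const, smul_eq_mul] at h4
    linarith
  have h4 : -‖koop μ T (m + n) F - F‖ ≤ (⟪ci μ (BBs T A' m n), koop μ T (m + n) F - F⟫_ℂ).re := by
    have h5 := (Complex.abs_re_le_norm (⟪ci μ (BBs T A' m n), koop μ T (m + n) F - F⟫_ℂ)).trans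
      (norm_inner_le_norm (𝕜 := ℂ) (ci μ (BBs T A' m n)) (koop μ T (m + n) F - F))
    have h6 : ‖ci μ (BBs T A' m n)‖ * ‖koop μ T (m + n) F - F‖ ≤ 1 * ‖koop μ T (m + n) F - F‖ :=
      mul_le_mul_of_nonneg_right (ci_norm hB') (norm_nonneg _)
    have h7 := neg_abs_le (⟪ci μ (BBs T A' m n), koop μ T (m + n) F - F⟫_ℂ).re
    linarith
  linarith

theorem term_nonneg (h : Sys c μ T) {A : Set X} (hA : MeasurableSet A)
    {F : Lp ℂ 2 μ} (hF : ∀ᵐ x ∂μ, posf (F x) = F x) {m n : ℕ} (hm : 0 < m) (hn : 0 < n) :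
    0 ≤ (⟪ci μ (BBs T A m n), koop μ T (m + n) F⟫_ℂ).re := by
  rw [inner_ci (BBs_meas h hA hm hn)]
  exact integral_nonneg_of_ae (ae_restrict_of_ae (koop_pos h (by omega) hF))

/-- the sum over the free integers -/
theorem sum_WW (h : Sys c μ T) {π : Fin r → ℕ} (hπ : Rep c π) {d₀ : ℝ}
    (hs₀ : Seq (qq c 1 π) (WW c) (rr c 1 π) d₀) (v : Lp ℂ 2 μ) (hv : ‖v‖ ≤ 1) {D : ℕ} (hD : 0 < D)
    {K : ℕ} (hK : 0 < K) :
    ((WW c K).card : ℝ) * (⟪PI (koop μ T) (qq c 1 π) v,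
      koop μ T D (PI (koop μ T) (qq c 1 π) v)⟫_ℂ).re - K *
      ‖avg (koop μ T) (WW c) (rr c 1 π) K (v - PI (koop μ T) (qq c 1 π) v)‖ ≤
      ∑ n ∈ WW c K, (⟪v, koop μ T (D * n) v⟫_ℂ).re := by
  have hKr : (0 : ℝ) < K := by exact_mod_cast hK
  set w := PI (koop μ T) (qq c 1 π) v with hw
  have hwm : w ∈ IV (koop μ T) (qq c 1 π) := PI_mem _ _
  have h1 : ∀ n ∈ WW c K, koop μ T (D * n) v = koop μ T D (koop μ T (rr c 1 π n) v) := by
    intro n hn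
    rw [← koop_WW h hπ hn]
    rw [mem_WW] at hn
    rw [h.FG.mul D n hD hn.1.1]; rfl
  have h2 : ∑ n ∈ WW c K, (⟪v, koop μ T (D * n) v⟫_ℂ).re =
      (⟪v, koop μ T D (∑ n ∈ WW c K, koop μ T (rr c 1 π n) v)⟫_ℂ).re := by
    rw [map_sum, inner_sum, Complex.re_sum]
    refine Finset.sum_congr rfl fun n hn => ?_
    rw [h1 n hn]
  have h3 : ∑ n ∈ WW c K, koop μ T (rr c 1 π n) v =
      ((WW c K).card : ℂ) • w + (K : ℂ) • avg (koop μ T) (WW c) (rr c 1 π) K (v - w) := by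
    have h4 : (K : ℂ) • avg (koop μ T) (WW c) (rr c 1 π) K v =
        ∑ n ∈ WW c K, koop μ T (rr c 1 π n) v := by
      unfold avg
      rw [_root_.smul_apply, _root_.sum_apply, smul_smul, mul_inv_cancel₀ (by exact_mod_cast hK.ne'),
        one_smul]
    have h5 := avg_IV h.FG hs₀ K hwm
    have h6 : (K : ℂ) • avg (koop μ T) (WW c) (rr c 1 π) K w = ((WW c K).card : ℂ) • w := by
      rw [h5]
      have hKc : (K : ℂ) ≠ 0 := by exact_mod_cast hK.ne'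
      rw [smul_smul]
      congr 1
      push_cast
      field_simp
    rw [map_sub, smul_sub, h6, h4]; abel
  have hu : ∀ z : Lp ℂ 2 μ, ‖koop μ T D z‖ = ‖z‖ := koop_norm (h.mp D hD)
  rw [h2, h3, map_add, map_smul, map_smul, inner_add_right, inner_smul_right, inner_smul_right,
    Complex.add_re]
  have h7 : ⟪v, koop μ T D w⟫_ℂ = ⟪w, koop μ T D w⟫_ℂ := by
    have h8 : koop μ T D w ∈ IV (koop μ T) (qq c 1 π) := IV_map h.FG hs₀.qpos hD hwm
    rw [← PI_of_mem h8, ← PI_self, ← hw, PI_of_mem h8]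
  have h8 : (((WW c K).card : ℂ) * ⟪v, koop μ T D w⟫_ℂ).re =
      ((WW c K).card : ℝ) * (⟪w, koop μ T D w⟫_ℂ).re := by
    rw [h7]
    have : ((WW c K).card : ℂ) = (((WW c K).card : ℝ) : ℂ) := by push_cast; rfl
    rw [this, Complex.re_ofReal_mul]
  set z := avg (koop μ T) (WW c) (rr c 1 π) K (v - w) with hz
  have h9 : -((K : ℝ) * ‖z‖) ≤ ((K : ℂ) * ⟪v, koop μ T D z⟫_ℂ).re := by
    have e1 : ((K : ℂ) * ⟪v, koop μ T D z⟫_ℂ).re = (K : ℝ) * (⟪v, koop μ T D z⟫_ℂ).re := by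
      have : (K : ℂ) = ((K : ℝ) : ℂ) := by push_cast; rfl
      rw [this, Complex.re_ofReal_mul]
    rw [e1]
    have e2 := (Complex.abs_re_le_norm (⟪v, koop μ T D z⟫_ℂ)).trans
      (norm_inner_le_norm (𝕜 := ℂ) v (koop μ T D z))
    rw [hu] at e2
    have e3 : ‖v‖ * ‖z‖ ≤ 1 * ‖z‖ := mul_le_mul_of_nonneg_right hv (norm_nonneg _)
    have e4 := neg_abs_le (⟪v, koop μ T D z⟫_ℂ).re
    have e5 : -‖z‖ ≤ (⟪v, koop μ T D z⟫_ℂ).re := by linarith
    have := mul_le_mul_of_nonneg_left e5 hKr.le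
    linarith
  rw [h8]
  linarith

/-- van der Corput type bound -/
theorem vdc (h : Sys c μ T) {Q : ℕ} (hQ : 0 < Q) {w : Lp ℂ 2 μ} (hw : ‖w‖ ≤ 1) (J : ℕ) :
    ((J : ℝ) ^ 2 * (⟪one2 μ, w⟫_ℂ).re ^ 2 - J) / 2 ≤
      ∑ j ∈ range J, ((J : ℝ) - 1 - j) * (⟪w, koop μ T (Q ^ (j + 1)) w⟫_ℂ).re := by
  have hpow : ∀ i : ℕ, 0 < Q ^ i := fun i => pow_pos hQ i
  set ρ : ℕ → ℝ := fun j => (⟪w, koop μ T (Q ^ j) w⟫_ℂ).re with hρ
  have h0 : ρ 0 = ‖w‖ ^ 2 := by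
    rw [hρ]
    simp only [pow_zero]
    rw [h.FG.one]
    have := inner_self_eq_norm_sq_to_K (𝕜 := ℂ) w
    change (⟪w, w⟫_ℂ).re = _
    rw [this]
    norm_cast
  have hstep : ∀ i, koop μ T Q (koop μ T (Q ^ i) w) = koop μ T (Q ^ (i + 1)) w := by
    intro i
    rw [pow_succ', h.FG.mul Q (Q ^ i) hQ (hpow i)]; rfl
  have hind : ∀ J : ℕ, ‖∑ i ∈ range J, koop μ T (Q ^ i) w‖ ^ 2 =
      J * ρ 0 + 2 * ∑ j ∈ range J, ((J : ℝ) - 1 - j) * ρ (j + 1) := by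
    intro J
    induction J with
    | zero => simp
    | succ J ih =>
      have e1 : ∑ i ∈ range (J + 1), koop μ T (Q ^ i) w =
          w + koop μ T Q (∑ i ∈ range J, koop μ T (Q ^ i) w) := by
        rw [Finset.sum_range_succ', map_sum, add_comm]
        congr 1
        · rw [pow_zero, h.FG.one]; rfl
        · exact Finset.sum_congr rfl fun i _ => (hstep i).symm
      rw [e1, norm_add_sq (𝕜 := ℂ), koop_norm (h.mp Q hQ), ih]
      have e2 : RCLike.re ⟪w, koop μ T Q (∑ i ∈ range J, koop μ T (Q ^ i) w)⟫_ℂ =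
          ∑ j ∈ range J, ρ (j + 1) := by
        change (⟪w, koop μ T Q (∑ i ∈ range J, koop μ T (Q ^ i) w)⟫_ℂ).re = _
        rw [map_sum, inner_sum, Complex.re_sum]
        exact Finset.sum_congr rfl fun i _ => by rw [hstep i]
      rw [e2, ← h0, Finset.sum_range_succ (fun j : ℕ => (((J + 1 : ℕ) : ℝ) - 1 - j) * ρ (j + 1))]
      push_cast
      have e3 : ∑ j ∈ range J, ((J : ℝ) + 1 - 1 - j) * ρ (j + 1) =
          ∑ j ∈ range J, ((J : ℝ) - 1 - j) * ρ (j + 1) + ∑ j ∈ range J, ρ (j + 1) := by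
        rw [← Finset.sum_add_distrib]
        exact Finset.sum_congr rfl fun j _ => by ring
      rw [e3]
      ring
  have h1 : ∀ i, ⟪one2 μ, koop μ T (Q ^ i) w⟫_ℂ = ⟪one2 μ, w⟫_ℂ := by
    intro i
    have e1 : star (koop μ T (Q ^ i)) * koop μ T (Q ^ i) = 1 :=
      Unitary.star_mul_self_of_mem (h.FG.uni _ (hpow i))
    conv_lhs => rw [← one2_koop h (hpow i)]
    rw [← ContinuousLinearMap.adjoint_inner_right]
    have h6 : (ContinuousLinearMap.adjoint (koop μ T (Q ^ i))) (koop μ T (Q ^ i) w) =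
        (star (koop μ T (Q ^ i)) * koop μ T (Q ^ i)) w := rfl
    rw [h6, e1]; rfl
  have h2 : (⟪one2 μ, ∑ i ∈ range J, koop μ T (Q ^ i) w⟫_ℂ).re = J * (⟪one2 μ, w⟫_ℂ).re := by
    rw [inner_sum, Complex.re_sum, Finset.sum_congr rfl fun i _ => by rw [h1 i], Finset.sum_const,
      card_range, nsmul_eq_mul]
  have h3 : |(J : ℝ) * (⟪one2 μ, w⟫_ℂ).re| ≤ ‖∑ i ∈ range J, koop μ T (Q ^ i) w‖ := by
    rw [← h2]
    refine (Complex.abs_re_le_norm _).trans ((norm_inner_le_norm (𝕜 := ℂ) _ _).trans ?_)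
    calc _ ≤ 1 * ‖∑ i ∈ range J, koop μ T (Q ^ i) w‖ :=
          mul_le_mul_of_nonneg_right one2_norm (norm_nonneg _)
      _ = _ := one_mul _
  have h4 : ((J : ℝ) * (⟪one2 μ, w⟫_ℂ).re) ^ 2 ≤ ‖∑ i ∈ range J, koop μ T (Q ^ i) w‖ ^ 2 := by
    rw [← sq_abs]
    exact pow_le_pow_left₀ (abs_nonneg _) h3 2
  rw [hind J] at h4
  have h5 : ρ 0 ≤ 1 := by
    rw [h0]
    have := norm_nonneg w
    nlinarith
  have hJ : (0 : ℝ) ≤ J := Nat.cast_nonneg _
  have h6 : (J : ℝ) * ρ 0 ≤ J * 1 := mul_le_mul_of_nonneg_left h5 hJ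
  change _ ≤ ∑ j ∈ range J, ((J : ℝ) - 1 - j) * ρ (j + 1)
  rw [div_le_iff₀ (by norm_num)]
  nlinarith

end Pool.Agent.H18.QA
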