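import Pool.Agent.H18.QA.Unif

/-! The projection onto the closure of the fixed vectors preserves positivity. -/

set_option autoImplicit false
set_option linter.unusedSectionVars false

namespace Pool.Agent.H18.QA

open Finset Filter Topology MeasureTheory ProbabilityTheory
open scoped InnerProductSpace ENNReal NNReal
open Pool.Agent.K7.H83.MA

/-- the positive part -/
noncomputable def posf (z : ℂ) : ℂ := ((max z.re 0 : ℝ) : ℂ)

theorem posf_zero : posf 0 = 0 := by simp [posf]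

theorem posf_lip : LipschitzWith 1 posf := by
  refine LipschitzWith.mk_one fun z w => ?_
  rw [dist_eq_norm, dist_eq_norm]
  unfold posf
  rw [← Complex.ofReal_sub, Complex.norm_real, Real.norm_eq_abs]
  refine (abs_max_sub_max_le_abs _ _ _).trans ?_
  rw [← Complex.sub_re]
  exact Complex.abs_re_le_norm _

variable {X : Type*} [MeasurableSpace X]

section hil
variable {μ : Measure X}

/-- the positive part of a vector -/
noncomputable def pp (f : Lp ℂ 2 μ) : Lp ℂ 2 μ := posf_lip.compLp posf_zero f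

theorem pp_coe (f : Lp ℂ 2 μ) : pp f =ᵐ[μ] fun x => posf (f x) :=
  posf_lip.coeFn_compLp posf_zero f

theorem pp_sub (f g : Lp ℂ 2 μ) : ‖pp f - pp g‖ ≤ ‖f - g‖ := by
  have := posf_lip.norm_compLp_sub_le posf_zero f g
  rw [NNReal.coe_one, one_mul] at this
  exact this

theorem pp_cont : Continuous (pp : Lp ℂ 2 μ → Lp ℂ 2 μ) := by
  refine LipschitzWith.continuous (K := 1) (LipschitzWith.mk_one fun f g => ?_)
  rw [dist_eq_norm, dist_eq_norm]
  exact pp_sub f g

theorem pp_eq {f : Lp ℂ 2 μ} (hf : ∀ᵐ x ∂μ, posf (f x) = f x) : pp f = f := by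
  apply Lp.ext
  filter_upwards [pp_coe f, hf] with x h1 h2
  rw [h1, h2]

theorem pp_eq' {f : Lp ℂ 2 μ} (hf : pp f = f) : ∀ᵐ x ∂μ, posf (f x) = f x := by
  have h1 := pp_coe f
  rw [hf] at h1
  filter_upwards [h1] with x h2
  exact h2.symm

theorem posf_re {z : ℂ} (h : posf z = z) : 0 ≤ z.re := by
  rw [← h]; unfold posf; rw [Complex.ofReal_re]; exact le_max_right _ _

end hil

variable {μ : Measure X} [IsProbabilityMeasure μ]
variable {r : ℕ} {c : ℕ → Fin r} {T : ℕ → X → X}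

theorem koop_pp (h : Sys c μ T) {n : ℕ} (hn : 0 < n) (f : Lp ℂ 2 μ) :
    koop μ T n (pp f) = pp (koop μ T n f) := by
  apply Lp.ext
  filter_upwards [koop_coe (h.mp n hn) (pp f), pp_coe (koop μ T n f), koop_coe (h.mp n hn) f,
    (h.mp n hn).quasiMeasurePreserving.ae (pp_coe f)] with x h1 h2 h3 h4
  rw [h1, h2, h3, h4]

theorem Fx.pp (h : Sys c μ T) {f : Lp ℂ 2 μ} (hf : Fx (koop μ T) f) :
    Fx (koop μ T) (QA.pp f) := by
  obtain ⟨Q, hQ, E, hE, h1⟩ := hf
  refine ⟨Q, hQ, E, hE, fun k hk hkQ hkE => ?_⟩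
  rw [koop_pp h hk, h1 k hk hkQ hkE]

/-- the closure of the fixed vectors -/
noncomputable def KK (μ : Measure X) [IsProbabilityMeasure μ] (T : ℕ → X → X) :
    Submodule ℂ (Lp ℂ 2 μ) := (FxS (koop μ T)).topologicalClosure

instance KK_complete : CompleteSpace (KK μ T) :=
  (Submodule.isClosed_topologicalClosure _).completeSpace_coe

theorem KK_pp (h : Sys c μ T) {f : Lp ℂ 2 μ} (hf : f ∈ KK μ T) : pp f ∈ KK μ T := by
  have h1 : f ∈ closure (FxS (koop μ T) : Set (Lp ℂ 2 μ)) := by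
    rw [← Submodule.topologicalClosure_coe]; exact hf
  have h2 : pp f ∈ closure (FxS (koop μ T) : Set (Lp ℂ 2 μ)) :=
    map_mem_closure pp_cont h1 fun x hx => Fx.pp h hx
  rw [← Submodule.topologicalClosure_coe] at h2
  exact h2

/-- the projection -/
noncomputable def PK (μ : Measure X) [IsProbabilityMeasure μ] (T : ℕ → X → X) :
    Lp ℂ 2 μ →L[ℂ] Lp ℂ 2 μ := (KK μ T).starProjection

theorem PK_mem (f : Lp ℂ 2 μ) : PK μ T f ∈ KK μ T := (KK μ T).starProjection_apply_mem f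

theorem PK_orth (f : Lp ℂ 2 μ) {y : Lp ℂ 2 μ} (hy : y ∈ KK μ T) : ⟪y, f - PK μ T f⟫_ℂ = 0 :=
  (Submodule.mem_orthogonal _ _).1 ((KK μ T).sub_starProjection_mem_orthogonal f) y hy

theorem PK_norm (f : Lp ℂ 2 μ) : ‖PK μ T f‖ ≤ ‖f‖ := (KK μ T).norm_starProjection_apply_le f

theorem PK_approx (f : Lp ℂ 2 μ) (ε : ℝ) (hε : 0 < ε) :
    ∃ y, Fx (koop μ T) y ∧ ‖PK μ T f - y‖ ≤ ε := by
  have h1 : PK μ T f ∈ closure (FxS (koop μ T) : Set (Lp ℂ 2 μ)) := by
    rw [← Submodule.topologicalClosure_coe]; exact PK_mem f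
  obtain ⟨y, hy, hd⟩ := Metric.mem_closure_iff.1 h1 ε hε
  exact ⟨y, hy, by rw [← dist_eq_norm]; exact hd.le⟩

/-- positivity of the projection -/
theorem PK_pos (h : Sys c μ T) {f : Lp ℂ 2 μ} (hf : ∀ᵐ x ∂μ, posf (f x) = f x) :
    ∀ᵐ x ∂μ, posf (PK μ T f x) = PK μ T f x := by
  apply pp_eq'
  set z := PK μ T f with hz
  have hw : pp z ∈ KK μ T := KK_pp h (PK_mem f)
  have h1 : ‖f - pp z‖ ≤ ‖f - z‖ := by
    have := pp_sub f z
    rwa [pp_eq hf] at this
  have h2 : ⟪z - pp z, f - z⟫_ℂ = 0 := PK_orth f ((KK μ T).sub_mem (PK_mem f) hw)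
  have h3 := norm_add_sq_eq_norm_sq_add_norm_sq_of_inner_eq_zero (𝕜 := ℂ) (z - pp z) (f - z) h2
  have h4 : z - pp z + (f - z) = f - pp z := by abel
  rw [h4] at h3
  have h5 : ‖z - pp z‖ = 0 := by
    have h6 := norm_nonneg (f - pp z)
    have h7 := norm_nonneg (z - pp z)
    nlinarith [norm_nonneg (f - z)]
  exact (sub_eq_zero.1 (norm_eq_zero.1 h5)).symm

/-- the constant function one -/
noncomputable def one2 (μ : Measure X) [IsProbabilityMeasure μ] : Lp ℂ 2 μ := bl μ (fun _ => 1)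

theorem one2_norm : ‖one2 μ‖ ≤ 1 :=
  bl_norm_le (BM.const 1) zero_le_one fun x => by simp

theorem one2_koop (h : Sys c μ T) {n : ℕ} (hn : 0 < n) : koop μ T n (one2 μ) = one2 μ := by
  unfold one2
  rw [koop_bl (h.mp n hn) (BM.const 1)]

theorem one2_mem (h : Sys c μ T) : one2 μ ∈ KK μ T :=
  Submodule.le_topologicalClosure _
    (⟨1, one_pos, fun _ => False, spa_false, fun _ hk _ _ => one2_koop h hk⟩ :
      Fx (koop μ T) (one2 μ))

theorem sq_le_PK (h : Sys c μ T) (y : Lp ℂ 2 μ) :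
    ‖⟪one2 μ, y⟫_ℂ‖ ^ 2 ≤ (⟪y, PK μ T y⟫_ℂ).re := by
  have h1 := PK_orth (μ := μ) (T := T) y (one2_mem h)
  rw [inner_sub_right, sub_eq_zero] at h1
  have h2 := PK_orth (μ := μ) (T := T) y (PK_mem (μ := μ) (T := T) y)
  rw [inner_sub_right, sub_eq_zero] at h2
  have h3 : (⟪y, PK μ T y⟫_ℂ).re = ‖PK μ T y‖ ^ 2 := by
    rw [← inner_conj_symm, h2, Complex.conj_re]
    have := inner_self_eq_norm_sq_to_K (𝕜 := ℂ) (PK μ T y)
    rw [this]
    norm_cast
  rw [h3, h1]
  have h4 := norm_inner_le_norm (𝕜 := ℂ) (one2 μ) (PK μ T y)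
  have h5 : ‖⟪one2 μ, PK μ T y⟫_ℂ‖ ≤ ‖PK μ T y‖ := by
    refine h4.trans ?_
    calc _ ≤ 1 * ‖PK μ T y‖ := mul_le_mul_of_nonneg_right one2_norm (norm_nonneg _)
      _ = _ := one_mul _
  exact pow_le_pow_left₀ (norm_nonneg _) h5 2

/-- the class of an indicator function -/
noncomputable def ci (μ : Measure X) [IsProbabilityMeasure μ] (B : Set X) : Lp ℂ 2 μ :=
  bl μ (B.indicator fun _ => (1 : ℂ))

theorem ci_norm {B : Set X} (hB : MeasurableSet B) : ‖ci μ B‖ ≤ 1 := by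
  refine bl_norm_le (ind_BM hB) zero_le_one fun x => ?_
  by_cases hx : x ∈ B <;> simp [hx]

theorem inner_ci {B : Set X} (hB : MeasurableSet B) (y : Lp ℂ 2 μ) :
    (⟪ci μ B, y⟫_ℂ).re = ∫ x in B, (y x).re ∂μ := by
  have hy : Integrable (fun x => y x) μ := (Lp.memLp y).integrable (by norm_num)
  have h1 : ⟪ci μ B, y⟫_ℂ = ∫ x in B, y x ∂μ := by
    rw [L2.inner_def, ← integral_indicator hB]
    refine integral_congr_ae ?_
    filter_upwards [bl_coe (ind_BM hB)] with x hx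
    unfold ci
    rw [RCLike.inner_apply, hx]
    by_cases h2 : x ∈ B <;> simp [h2]
  rw [h1]
  exact (integral_re hy.integrableOn).symm

theorem inner_ci_one {B : Set X} (hB : MeasurableSet B) :
    ⟪one2 μ, ci μ B⟫_ℂ = ((μ.real B : ℝ) : ℂ) := by
  unfold one2 ci
  rw [inner_bl (BM.const 1) (ind_BM hB)]
  simp only [map_one, one_mul]
  rw [integral_indicator hB, integral_const]
  simp

theorem ci_pos {B : Set X} (hB : MeasurableSet B) : ∀ᵐ x ∂μ, posf (ci μ B x) = ci μ B x := by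
  filter_upwards [bl_coe (ind_BM hB)] with x hx
  unfold ci
  rw [hx]
  by_cases h2 : x ∈ B <;> simp [h2, posf]

/-- the large part of a set -/
theorem large_part (h : Sys c μ T) {A : Set X} (hA : MeasurableSet A) (δ : ℝ) (hδ : 0 ≤ δ) :
    ∃ A' : Set X, MeasurableSet A' ∧ A' ⊆ A ∧ (∀ x ∈ A', δ ≤ (PK μ T (ci μ A) x).re) ∧
      μ.real A ≤ μ.real A' + δ := by
  set F := PK μ T (ci μ A) with hF
  have hFm : Measurable (fun x => (F x).re) :=
    Complex.measurable_re.comp (Lp.stronglyMeasurable F).measurable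
  set B : Set X := A ∩ {x | (F x).re < δ} with hB
  have hBm : MeasurableSet B := hA.inter (measurableSet_lt hFm measurable_const)
  have hAB : MeasurableSet (A \ B) := hA.diff hBm
  refine ⟨A \ B, hAB, Set.sdiff_subset, fun x hx => ?_, ?_⟩
  · by_contra h1
    push Not at h1
    exact hx.2 ⟨hx.1, h1⟩
  have hsum : ci μ A = ci μ (A \ B) + ci μ B := by
    unfold ci
    rw [← bl_add (ind_BM hAB) (ind_BM hBm)]
    congr 1
    funext x
    by_cases h1 : x ∈ B
    · have h2 : x ∈ A := h1.1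
      simp [h1, h2]
    · by_cases h2 : x ∈ A <;> simp [h1, h2]
  have h1 : F = PK μ T (ci μ (A \ B)) + PK μ T (ci μ B) := by rw [hF, hsum, map_add]
  have h2 : ∀ᵐ x ∂μ, (PK μ T (ci μ B) x).re ≤ (F x).re := by
    filter_upwards [PK_pos h (ci_pos hAB), Lp.coeFn_add (PK μ T (ci μ (A \ B))) (PK μ T (ci μ B))]
      with x h3 h4
    rw [h1, h4, Pi.add_apply, Complex.add_re]
    have := posf_re h3
    linarith
  have h3 := sq_le_PK (T := T) h (ci μ B)
  rw [inner_ci_one hBm, Complex.norm_real, Real.norm_of_nonneg measureReal_nonneg,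
    inner_ci hBm] at h3
  have hint : ∀ y : Lp ℂ 2 μ, Integrable (fun x => (y x).re) μ := fun y =>
    ((Lp.memLp y).integrable (by norm_num)).re
  have h4 : ∫ x in B, (PK μ T (ci μ B) x).re ∂μ ≤ ∫ _ in B, δ ∂μ := by
    refine setIntegral_mono_on_ae (hint _).integrableOn (integrable_const δ).integrableOn hBm ?_
    filter_upwards [h2] with x h5 h6
    exact h5.trans h6.2.le
  rw [setIntegral_const, smul_eq_mul] at h4
  have h5 : μ.real B ^ 2 ≤ μ.real B * δ := h3.trans h4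
  have h6 : μ.real B ≤ δ := by
    have h7 : 0 ≤ μ.real B := measureReal_nonneg
    rcases h7.eq_or_lt with h8 | h8
    · rw [← h8]; exact hδ
    · rw [sq] at h5
      exact le_of_mul_le_mul_left h5 h8
  have h7 : μ.real A ≤ μ.real (A \ B) + μ.real B := by
    have h8 : A ⊆ (A \ B) ∪ B := by
      intro x hx
      by_cases h9 : x ∈ B
      · exact Or.inr h9
      · exact Or.inl ⟨hx, h9⟩
    exact (measureReal_mono h8).trans (measureReal_union_le _ _)
  linarith

end Pool.Agent.H18.QA
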