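import Pool.Agent.H18.QA.Fx

/-! Averages over the integers free of small colours, uniformly on average. -/

set_option autoImplicit false
set_option linter.unusedSectionVars false

namespace Pool.Agent.H18.QA

open Finset Filter Topology MeasureTheory ProbabilityTheory
open scoped InnerProductSpace ENNReal
open Pool.Agent.K7.H83.MA

variable {X : Type*} [MeasurableSpace X] [StandardBorelSpace X] {μ : Measure X}
  [IsProbabilityMeasure μ]
variable {r : ℕ} {c : ℕ → Fin r} {T : ℕ → X → X} {q : Fin r → ℕ}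
variable {L : ℕ → Finset ℕ} {ρ : ℕ → ℕ} {d : ℝ} {L' : ℕ → Finset ℕ} {ρ' : ℕ → ℕ} {d' : ℝ}

theorem y_bound (h : Sys c μ T) {s : ℕ} (hs : 0 < s) {a b : X → ℂ} (ha : BM a) (hb : BM b)
    {C D : ℝ} (hC : 0 ≤ C) (hD : 0 ≤ D) (h1 : ∀ x, ‖a x‖ ≤ C) (h2 : ∀ x, ‖b x‖ ≤ D) :
    ‖gv μ T s a b - PI (koop μ T) q (gv μ T s a b)‖ ≤ 2 * (C * D) := by
  have h5 : ‖gv μ T s a b‖ ≤ C * D := by
    unfold gv
    refine bl_norm_le (gv_BM h hs ha hb) (by positivity) fun x => ?_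
    rw [norm_mul]
    exact mul_le_mul (h1 x) (h2 _) (norm_nonneg _) hC
  have h6 := PI_norm (q := q) (koop μ T) (gv μ T s a b)
  refine (norm_sub_le _ _).trans ?_
  linarith

/-- uniformity over one label -/
theorem unif_lab (h : Sys c μ T) (hs : Seq q L ρ d) (hI : Inv1 (koop μ T) q L ρ)
    (hI2 : Inv1 (koop (rel μ T q) (T2 T)) q L ρ) (hs' : Seq q L' ρ' d')
    (hI' : Inv1 (koop μ T) q L' ρ') (hI2' : Inv1 (koop (rel μ T q) (T2 T)) q L' ρ') (hd' : 0 < d')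
    {F2 F4 : X → ℂ} (h2 : BM F2) (h4 : BM F4) (ε : ℝ) (hε : 0 < ε) :
    ∃ N₀ : ℕ, ∀ N N' : ℕ, N₀ ≤ N → N₀ ≤ N' → (N : ℝ)⁻¹ * ∑ m ∈ L N,
      ‖avg (koop μ T) L' ρ' N' (gv μ T (ρ m) F2 F4 - PI (koop μ T) q (gv μ T (ρ m) F2 F4))‖ ≤
        ε := by
  obtain ⟨C2, hC2, hF2⟩ := h2.2
  obtain ⟨C4, hC4, hF4⟩ := h4.2
  set y : ℕ → Lp ℂ 2 μ := fun n => gv μ T (ρ n) F2 F4 - PI (koop μ T) q (gv μ T (ρ n) F2 F4)
    with hy
  have hyb : ∀ n, ‖y n‖ ≤ 2 * (C2 * C4) := fun n =>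
    y_bound h (hs.pos n) h2 h4 hC2 hC4 hF2 hF4
  have hd0 : 0 ≤ d := ge_of_tendsto' hs.dens fun N => by positivity
  rcases hd0.eq_or_lt with hd | hd
  · have h5 := hs.dens.mul_const (2 * (C2 * C4))
    rw [← hd, zero_mul] at h5
    obtain ⟨N₀, hN₀⟩ := eventually_atTop.1 (h5.eventually (gt_mem_nhds hε))
    refine ⟨N₀, fun N N' hN _ => ?_⟩
    have h6 := hN₀ N hN
    have h7 : ∀ m ∈ L N, ‖avg (koop μ T) L' ρ' N' (y m)‖ ≤ 2 * (C2 * C4) := by
      intro m _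
      refine (ContinuousLinearMap.le_opNorm _ _).trans ?_
      calc _ ≤ 1 * ‖y m‖ := mul_le_mul_of_nonneg_right (avg_norm h.FG hs' N') (norm_nonneg _)
        _ ≤ _ := by rw [one_mul]; exact hyb m
    have h8 := Finset.sum_le_sum h7
    rw [Finset.sum_const, nsmul_eq_mul] at h8
    calc _ ≤ (N : ℝ)⁻¹ * ((L N).card * (2 * (C2 * C4))) :=
          mul_le_mul_of_nonneg_left h8 (by positivity)
      _ = ((L N).card : ℝ) / N * (2 * (C2 * C4)) := by ring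
      _ ≤ ε := h6.le
  -- choose `η`
  set η : ℝ := (ε * d' / 8) with hη
  have hη0 : 0 < η := by positivity
  -- choose `K`
  obtain ⟨K, hKd, hKdef⟩ : ∃ K : ℕ, d' / 2 < ((L' K).card : ℝ) / K ∧
      d * (‖avg (koop (rel μ T q) (T2 T)) L' ρ' K (tp μ T q F2 F4)‖ ^ 2 -
        (((L' K).card : ℝ) / K) ^ 2 * ‖PI (koop (rel μ T q) (T2 T)) q (tp μ T q F2 F4)‖ ^ 2)
        < η ^ 2 := by
    have h5 := (defect_zero h hs' hI2' (tp μ T q F2 F4)).const_mul d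
    rw [mul_zero] at h5
    have h6 := h5.eventually (gt_mem_nhds (show (0 : ℝ) < η ^ 2 by positivity))
    have h7 := hs'.dens.eventually (lt_mem_nhds (show d' / 2 < d' by linarith))
    exact (h7.and h6).exists
  have hK0 : 0 < ((L' K).card : ℝ) / K := by linarith
  obtain ⟨δ, hδ, habs⟩ := absorb h.FG hs' hI' K hK0
  have h5 := (lim_defect h hs hI hI2 hd hs' K h2 h4).eventually (gt_mem_nhds hKdef)
  have h6 : Tendsto (fun N => |δ N| * (2 * (C2 * C4))) atTop (𝓝 (|(0 : ℝ)| * (2 * (C2 * C4)))) :=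
    hδ.abs.mul_const _
  rw [abs_zero, zero_mul] at h6
  have h7 := h6.eventually (gt_mem_nhds (show (0 : ℝ) < ε / 2 by positivity))
  obtain ⟨N₁, hN₁⟩ := eventually_atTop.1 h5
  obtain ⟨N₂, hN₂⟩ := eventually_atTop.1 h7
  refine ⟨max N₁ N₂ + 1, fun N N' hN hN' => ?_⟩
  have h8 := hN₁ N ((le_max_left N₁ N₂).trans (by omega))
  have h9 := hN₂ N' ((le_max_right N₁ N₂).trans (by omega))
  have hNpos : (0 : ℝ) < N := by exact_mod_cast (by omega : 0 < N)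
  set S : ℝ := (N : ℝ)⁻¹ * ∑ m ∈ L N, ‖avg (koop μ T) L' ρ' K (y m)‖ with hS
  have hS0 : 0 ≤ S := by positivity
  have hSη : S ≤ η := by
    have h10 := sq_avg_le hs.sub N (fun m => ‖avg (koop μ T) L' ρ' K (y m)‖)
    have h11 : S ^ 2 ≤ η ^ 2 := h10.trans h8.le
    exact (sq_le_sq₀ hS0 hη0.le).1 h11
  have h12 : ∑ m ∈ L N, ‖avg (koop μ T) L' ρ' N' (y m)‖ ≤
      ∑ m ∈ L N, ((|δ N'| * (2 * (C2 * C4))) +
        ((d' / 2)⁻¹ * ‖avg (koop μ T) L' ρ' K (y m)‖)) := by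
    refine Finset.sum_le_sum fun m _ => ?_
    refine (habs N' (y m)).trans (add_le_add ?_ ?_)
    · exact mul_le_mul (le_abs_self _) (hyb m) (norm_nonneg _) (abs_nonneg _)
    · refine mul_le_mul_of_nonneg_right ?_ (norm_nonneg _)
      exact inv_anti₀ (by positivity) hKd.le
  have hcard : ((L N).card : ℝ) ≤ N := card_le_of_sub hs.sub N
  have h13 : (N : ℝ)⁻¹ * ∑ m ∈ L N, ((|δ N'| * (2 * (C2 * C4))) +
        ((d' / 2)⁻¹ * ‖avg (koop μ T) L' ρ' K (y m)‖)) ≤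
      (|δ N'| * (2 * (C2 * C4))) + ((d' / 2)⁻¹ * S) := by
    rw [Finset.sum_add_distrib, Finset.sum_const, nsmul_eq_mul, mul_add]
    refine add_le_add ?_ (le_of_eq ?_)
    · have : (0 : ℝ) ≤ (|δ N'| * (2 * (C2 * C4))) := by positivity
      calc _ ≤ (N : ℝ)⁻¹ * (N * (|δ N'| * (2 * (C2 * C4)))) :=
            mul_le_mul_of_nonneg_left (mul_le_mul_of_nonneg_right hcard this) (by positivity)
        _ = _ := by field_simp
    · rw [hS, ← Finset.mul_sum]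
      ring
  have h14 : (d' / 2)⁻¹ * S ≤ ε / 2 := by
    calc (d' / 2)⁻¹ * S ≤ (d' / 2)⁻¹ * η := mul_le_mul_of_nonneg_left hSη (by positivity)
      _ = ε / 4 := by rw [hη]; field_simp; ring
      _ ≤ ε / 2 := by linarith
  calc _ ≤ (N : ℝ)⁻¹ * ∑ m ∈ L N, ((|δ N'| * (2 * (C2 * C4))) +
        ((d' / 2)⁻¹ * ‖avg (koop μ T) L' ρ' K (y m)‖)) :=
        mul_le_mul_of_nonneg_left h12 (by positivity)
    _ ≤ _ := h13
    _ ≤ ε / 2 + ε / 2 := add_le_add h9.le h14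
    _ = ε := by ring

instance subs_GG : Subsingleton (GG r 1) := by
  have h1 : Subsingleton (ZMod (Nat.totient 1)) := by
    rw [Nat.totient_one]
    infer_instance
  have h2 : Subsingleton (Additive (ZMod 1)ˣ) := by
    have : Subsingleton (ZMod 1)ˣ := inferInstance
    exact Additive.toMul.injective.subsingleton
  infer_instance

/-- the integers free of the primes of the small colours -/
noncomputable def WW (c : ℕ → Fin r) (N : ℕ) : Finset ℕ := lab c 1 N 1 0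

theorem mem_WW {N n : ℕ} : n ∈ WW c N ↔ (0 < n ∧ n ≤ N) ∧ sp c 1 n = 1 := by
  unfold WW
  rw [mem_lab]
  constructor
  · rintro ⟨h1, h2, _⟩; exact ⟨h1, h2⟩
  · rintro ⟨h1, h2⟩; exact ⟨h1, h2, Subsingleton.elim _ _⟩

theorem tt_one (π : Fin r → ℕ) (g : GG r 1) : tt 1 π g = 1 := by
  unfold tt
  refine Finset.prod_eq_one fun i _ => ?_
  have h1 : (g.2 i).val < Nat.totient 1 := by
    have : NeZero (Nat.totient 1) := ⟨by simp⟩
    exact ZMod.val_lt _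
  have h0 : Nat.totient 1 = 1 := Nat.totient_one
  have h2 : (g.2 i).val = 0 := by omega
  rw [h2, pow_zero]

theorem koop_WW (h : Sys c μ T) {π : Fin r → ℕ} (hπ : Rep c π) {N n : ℕ} (hn : n ∈ WW c N) :
    koop μ T n = koop μ T (rr c 1 π n) := by
  rw [mem_WW] at hn
  rw [u_lab c 1 h.FG hπ one_pos hn.1.1, hn.2, tt_one, mul_one, h.FG.one, one_mul]

/-- uniformity over all integers -/
theorem unif_all (h : Sys c μ T) {π : Fin r → ℕ} (hπ : Rep c π) {d₀ : ℝ}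
    (hs₀ : Seq (qq c 1 π) (WW c) (rr c 1 π) d₀) (hd₀ : 0 < d₀)
    {f : X → ℂ} (hf : BM f) (ε : ℝ) (hε : 0 < ε) :
    ∃ N₀ : ℕ, ∀ N N' : ℕ, N₀ ≤ N → N₀ ≤ N' → (N : ℝ)⁻¹ * ∑ m ∈ Ioc 0 N,
      ‖avg (koop μ T) (WW c) (rr c 1 π) N'
        (gv μ T m f f - PI (koop μ T) (qq c 1 π) (gv μ T m f f))‖ ≤ ε := by
  classical
  obtain ⟨C, hC, hfC⟩ := hf.2
  set κ : ℝ := 2 * (C * C) with hκ
  have hκ0 : 0 ≤ κ := by positivity
  set Y : ℕ → ℕ → ℝ := fun N' m => ‖avg (koop μ T) (WW c) (rr c 1 π) N'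
        (gv μ T m f f - PI (koop μ T) (qq c 1 π) (gv μ T m f f))‖ with hY
  have hYb : ∀ N' m, 0 < m → Y N' m ≤ κ := by
    intro N' m hm
    rw [hY]
    refine (ContinuousLinearMap.le_opNorm _ _).trans ?_
    calc _ ≤ 1 * ‖gv μ T m f f - PI (koop μ T) (qq c 1 π) (gv μ T m f f)‖ :=
          mul_le_mul_of_nonneg_right (avg_norm h.FG hs₀ N') (norm_nonneg _)
      _ ≤ _ := by rw [one_mul]; exact y_bound h hm hf hf hC hC hfC hfC
  obtain ⟨M, hM0, _, hMc⟩ := good (spa_Sp c 1 one_pos) (ε / (2 * (κ + 1))) (by positivity)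
  -- labels
  have hlab : ∀ s : ℕ, s ∈ M.divisors → ∃ N₀ : ℕ, ∀ N N' : ℕ, N₀ ≤ N → N₀ ≤ N' →
      (N : ℝ)⁻¹ * ∑ m ∈ lab c 1 N s 0, Y N' m ≤ ε / (2 * (M.divisors.card + 1)) := by
    intro s hs
    have hs0 : 0 < s := Nat.pos_of_mem_divisors hs
    obtain ⟨d, hseq⟩ := seq_lab c 1 hπ s 0
    have hq := hseq.qpos
    have hg : BM (fun x => f (T s x)) := hf.comp (h.mp s hs0).measurable
    obtain ⟨N₀, hN₀⟩ := unif_lab h hseq (inv_lab c 1 one_pos hπ s 0 h.FG)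
      (inv_lab c 1 one_pos hπ s 0 (h.prod hq).FG) hs₀ (inv_lab c 1 one_pos hπ 1 0 h.FG)
      (inv_lab c 1 one_pos hπ 1 0 (h.prod hq).FG) hd₀ hf hg
      (ε / (2 * (M.divisors.card + 1))) (by positivity)
    refine ⟨N₀, fun N N' hN hN' => le_trans (le_of_eq ?_) (hN₀ N N' hN hN')⟩
    congr 1
    refine Finset.sum_congr rfl fun m hm => ?_
    rw [mem_lab] at hm
    have hu1 := u_lab c 1 h.FG hπ one_pos hm.1.1
    rw [hm.2.1, tt_one, mul_one] at hu1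
    have hrm := rr_pos c 1 hπ.pos m
    have e1 := ae_of_u h hm.1.1 hs0 hrm (by rw [hu1, h.FG.comm hs0 hrm]) hf
    have e2 : gv μ T m f f = gv μ T (rr c 1 π m) f (fun x => f (T s x)) := by
      unfold gv
      refine bl_congr (gv_BM h hm.1.1 hf hf) (gv_BM h hrm hf hg) ?_
      filter_upwards [e1] with x e1
      rw [e1]
    rw [hY]
    beta_reduce
    rw [e2]
  choose! N₁ hN₁ using hlab
  refine ⟨∑ s ∈ M.divisors, N₁ s + 1, fun N N' hN hN' => ?_⟩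
  have hNpos : (0 : ℝ) < N := by exact_mod_cast (by omega : 0 < N)
  have hle : ∀ s ∈ M.divisors, N₁ s ≤ ∑ s ∈ M.divisors, N₁ s := fun s hs =>
    Finset.single_le_sum (f := N₁) (fun _ _ => Nat.zero_le _) hs
  have hsplit : ∑ m ∈ Ioc 0 N, Y N' m = ∑ s ∈ M.divisors, ∑ m ∈ lab c 1 N s 0, Y N' m +
      ∑ m ∈ (Ioc 0 N).filter (fun m => ¬ prt (Sp c 1) m ∣ M), Y N' m := by
    rw [← Finset.sum_filter_add_sum_filter_not (Ioc 0 N) (fun m => prt (Sp c 1) m ∣ M)]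
    congr 1
    have hmaps : ∀ n ∈ (Ioc 0 N).filter (fun n => prt (Sp c 1) n ∣ M), sp c 1 n ∈ M.divisors := by
      intro n hn
      rw [mem_filter] at hn
      exact Nat.mem_divisors.2 ⟨hn.2, hM0.ne'⟩
    rw [← Finset.sum_fiberwise_of_maps_to hmaps]
    refine Finset.sum_congr rfl fun s hs => Finset.sum_congr ?_ fun _ _ => rfl
    ext n
    rw [mem_filter, mem_filter, mem_lab, mem_Ioc]
    constructor
    · rintro ⟨⟨h5, _⟩, h7⟩
      exact ⟨h5, h7, Subsingleton.elim _ _⟩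
    · rintro ⟨h5, h6, _⟩
      refine ⟨⟨h5, ?_⟩, h6⟩
      rw [← sp_eq_prt, h6]
      exact (Nat.mem_divisors.1 hs).1
  change (N : ℝ)⁻¹ * ∑ m ∈ Ioc 0 N, Y N' m ≤ ε
  rw [hsplit, mul_add, Finset.mul_sum]
  have h1 : ∑ s ∈ M.divisors, (N : ℝ)⁻¹ * ∑ m ∈ lab c 1 N s 0, Y N' m ≤ ε / 2 := by
    refine (Finset.sum_le_sum fun s hs => hN₁ s hs N N' ((hle s hs).trans (by omega))
      ((hle s hs).trans (by omega))).trans ?_
    rw [Finset.sum_const, nsmul_eq_mul]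
    have : (0 : ℝ) ≤ (M.divisors.card : ℝ) := Nat.cast_nonneg _
    rw [mul_div_assoc', div_le_div_iff₀ (by positivity) (by norm_num)]
    nlinarith
  have h2 : (N : ℝ)⁻¹ * ∑ m ∈ (Ioc 0 N).filter (fun m => ¬ prt (Sp c 1) m ∣ M), Y N' m ≤ ε / 2 := by
    have h3 : ∑ m ∈ (Ioc 0 N).filter (fun m => ¬ prt (Sp c 1) m ∣ M), Y N' m ≤
        (ε / (2 * (κ + 1)) * N) * κ := by
      refine (Finset.sum_le_sum fun m hm => hYb N' m (mem_Ioc.1 (mem_filter.1 hm).1).1).trans ?_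
      rw [Finset.sum_const, nsmul_eq_mul]
      exact mul_le_mul_of_nonneg_right (hMc N) hκ0
    calc _ ≤ (N : ℝ)⁻¹ * ((ε / (2 * (κ + 1)) * N) * κ) :=
          mul_le_mul_of_nonneg_left h3 (by positivity)
      _ = ε / 2 * (κ / (κ + 1)) := by field_simp
      _ ≤ ε / 2 * 1 := by
          refine mul_le_mul_of_nonneg_left ?_ (by positivity)
          rw [div_le_one (by positivity)]; linarith
      _ = ε / 2 := by ring
  linarith

/-- positive density -/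
theorem WW_dens {π : Fin r → ℕ} {d₀ : ℝ}
    (hs₀ : Seq (qq c 1 π) (WW c) (rr c 1 π) d₀) : 0 < d₀ := by
  classical
  obtain ⟨κ, hκ, N₀, hN₀⟩ := dens_pos (spa_Sp c 1 one_pos)
  refine lt_of_lt_of_le hκ (ge_of_tendsto hs₀.dens ?_)
  filter_upwards [eventually_ge_atTop (N₀ + 1)] with N hN
  have hNpos : (0 : ℝ) < N := by exact_mod_cast (by omega : 0 < N)
  rw [le_div_iff₀ hNpos]
  refine (hN₀ N (by omega)).trans ?_
  refine Nat.cast_le.2 (Finset.card_le_card fun k hk => ?_)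
  rw [mem_filter, mem_Ioc] at hk
  rw [mem_WW]
  exact ⟨hk.1, by rw [sp_eq_prt]; exact prt_one_of_free hk.2⟩

theorem exists_WW {π : Fin r → ℕ} (hπ : Rep c π) :
    ∃ d₀ : ℝ, 0 < d₀ ∧ Seq (qq c 1 π) (WW c) (rr c 1 π) d₀ := by
  obtain ⟨d, hd⟩ := seq_lab c 1 hπ 1 0
  exact ⟨d, WW_dens hd, hd⟩

end Pool.Agent.H18.QA
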